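import Pool.Agent.T6.H46.DL.Proper

set_option autoImplicit false

open Filter Topology Set Metric unitInterval

namespace Pool.Agent.T6.H46.DL

open Pool.Agent.H789R2.AN Pool.Agent.H789R2.GP Pool.Agent.H721R2 Pool.Agent.T6.H66.PS

variable {X : Type*} [MetricSpace X]

/-- The paths `c` and `c'` are homotopic through paths of size `r` between their end points. -/
def Cl (r : ℝ) (c c' : C(I, X)) : Prop :=
  ∃ (κ₀ : Path (c 0) (c' 0)) (κ₁ : Path (c 1) (c' 1)), (∀ t, dist (κ₀ t) (c 0) < r) ∧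
    (∀ t, dist (κ₁ t) (c 1) < r) ∧ (Q (pth c)).trans (Q κ₁) = (Q κ₀).trans (Q (pth c'))

theorem Cl.mono {r r' : ℝ} {c c' : C(I, X)} (h : Cl r c c') (hr : r ≤ r') : Cl r' c c' := by
  obtain ⟨k0, k1, h0, h1, h2⟩ := h
  exact ⟨k0, k1, fun t => (h0 t).trans_le hr, fun t => (h1 t).trans_le hr, h2⟩

theorem Cl.dist0 {r : ℝ} {c c' : C(I, X)} (h : Cl r c c') : dist (c 0) (c' 0) < r := by
  obtain ⟨k0, k1, h0, h1, h2⟩ := h
  have := h0 1
  rwa [k0.target, dist_comm] at this

theorem Cl.dist1 {r : ℝ} {c c' : C(I, X)} (h : Cl r c c') : dist (c 1) (c' 1) < r := by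
  obtain ⟨k0, k1, h0, h1, h2⟩ := h
  have := h1 1
  rwa [k1.target, dist_comm] at this

theorem Cl.refl {r : ℝ} (hr : 0 < r) (c : C(I, X)) : Cl r c c := by
  refine ⟨Path.refl _, Path.refl _, fun t => ?_, fun t => ?_, ?_⟩
  · show dist (c 0) (c 0) < r
    rw [dist_self]; exact hr
  · show dist (c 1) (c 1) < r
    rw [dist_self]; exact hr
  · show (Q (pth c)).trans (Path.Homotopic.Quotient.refl _) =
      (Path.Homotopic.Quotient.refl _).trans (Q (pth c))
    rw [Path.Homotopic.Quotient.refl_trans, Path.Homotopic.Quotient.trans_refl]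

theorem Cl.trans {r r' : ℝ} {c c' c'' : C(I, X)} (h : Cl r c c') (h' : Cl r' c' c'') :
    Cl (r + r') c c'' := by
  have d0 := h.dist0
  have d1 := h.dist1
  obtain ⟨k0, k1, h0, h1, h2⟩ := h
  obtain ⟨k0', k1', h0', h1', h2'⟩ := h'
  have hr : 0 < r := lt_of_le_of_lt dist_nonneg (h0 0)
  have hr' : 0 < r' := lt_of_le_of_lt dist_nonneg (h0' 0)
  refine ⟨k0.trans k0', k1.trans k1', ?_, ?_, ?_⟩
  · refine trans_mem (S := {z | dist z (c 0) < r + r'}) (fun t => ?_) (fun t => ?_)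
    · show dist (k0 t) (c 0) < r + r'
      linarith [h0 t]
    · show dist (k0' t) (c 0) < r + r'
      have := dist_triangle (k0' t) (c' 0) (c 0)
      rw [dist_comm] at d0
      linarith [h0' t]
  · refine trans_mem (S := {z | dist z (c 1) < r + r'}) (fun t => ?_) (fun t => ?_)
    · show dist (k1 t) (c 1) < r + r'
      linarith [h1 t]
    · show dist (k1' t) (c 1) < r + r'
      have := dist_triangle (k1' t) (c' 1) (c 1)
      rw [dist_comm] at d1
      linarith [h1' t]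
  · show (Q (pth c)).trans ((Q k1).trans (Q k1')) = ((Q k0).trans (Q k0')).trans (Q (pth c''))
    rw [← Path.Homotopic.Quotient.trans_assoc, h2, Path.Homotopic.Quotient.trans_assoc, h2',
      ← Path.Homotopic.Quotient.trans_assoc]

theorem Cl.symm {r : ℝ} {c c' : C(I, X)} (h : Cl r c c') : Cl (2 * r) c' c := by
  have d0 := h.dist0
  have d1 := h.dist1
  obtain ⟨k0, k1, h0, h1, h2⟩ := h
  refine ⟨k0.symm, k1.symm, fun t => ?_, fun t => ?_, ?_⟩
  · have a1 : dist (k0.symm t) (c 0) < r := h0 _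
    have := dist_triangle (k0.symm t) (c 0) (c' 0)
    linarith
  · have a1 : dist (k1.symm t) (c 1) < r := h1 _
    have := dist_triangle (k1.symm t) (c 1) (c' 1)
    linarith
  · exact quot_alg (Q k0) (Q (pth c')) (Q (pth c)) (Q k1) h2.symm

theorem Cl.push {F : X ≃ₜ X} {r r' : ℝ} {k : ℕ}
    (hF : ∀ u v : X, dist u v < r → dist (F^[k] u) (F^[k] v) < r') {c c' : C(I, X)}
    (h : Cl r c c') : Cl r' (push F k c) (push F k c') := by
  obtain ⟨k0, k1, h0, h1, h2⟩ := h
  set ψ : X ≃ₜ X := iterHomeo F k with hψ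
  refine ⟨k0.map ψ.continuous, k1.map ψ.continuous, fun t => hF _ _ (h0 t),
    fun t => hF _ _ (h1 t), ?_⟩
  have h3 : ((pth c).trans k1).Homotopic (k0.trans (pth c')) := Path.Homotopic.Quotient.eq.mp h2
  have h4 := Path.Homotopic.map (f := (ψ : C(X, X))) h3
  have h5 : (((pth c).trans k1).map ψ.continuous).Homotopic
    ((k0.trans (pth c')).map ψ.continuous) := h4
  rw [Path.map_trans, Path.map_trans] at h5
  exact Path.Homotopic.Quotient.eq.mpr h5

/-- The size of the connecting paths can be improved. -/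
theorem cl_improve (hX : ULC X) : ∃ δ > 0, ∀ ε > 0, ∃ ρ > 0, ∀ c c' : C(I, X), Cl δ c c' →
    dist (c 0) (c' 0) < ρ → dist (c 1) (c' 1) < ρ → Cl ε c c' := by
  obtain ⟨δ, hδ, h0⟩ := small_hom hX
  refine ⟨δ, hδ, fun ε hε => ?_⟩
  obtain ⟨ρ, hρ, hp⟩ := hX.path (min ε δ) (lt_min hε hδ)
  refine ⟨ρ, hρ, fun c c' h d0 d1 => ?_⟩
  obtain ⟨k0, k1, h0', h1', h2⟩ := h
  obtain ⟨κ, a1, a2, a3⟩ := hp (c 0) (c 0) (c' 0) (mem_ball_self hρ) (by
    rw [mem_ball, dist_comm]; exact d0)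
  obtain ⟨κ', b1, b2, b3⟩ := hp (c 1) (c 1) (c' 1) (mem_ball_self hρ) (by
    rw [mem_ball, dist_comm]; exact d1)
  let p0 : Path (c 0) (c' 0) := ⟨κ, a1, a2⟩
  let p1 : Path (c 1) (c' 1) := ⟨κ', b1, b2⟩
  have e0 : Q p0 = Q k0 := Path.Homotopic.Quotient.eq.mpr (h0 (c 0) _ _ p0 k0
    (fun t => lt_of_lt_of_le (a3 t) (min_le_right _ _)) h0')
  have e1 : Q p1 = Q k1 := Path.Homotopic.Quotient.eq.mpr (h0 (c 1) _ _ p1 k1
    (fun t => lt_of_lt_of_le (b3 t) (min_le_right _ _)) h1')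
  refine ⟨p0, p1, fun t => lt_of_lt_of_le (a3 t) (min_le_left _ _),
    fun t => lt_of_lt_of_le (b3 t) (min_le_left _ _), ?_⟩
  rw [e0, e1]
  exact h2

/-- Small paths with close end points are close. -/
theorem cl_small (hX : ULC X) : ∃ δ > 0, ∀ ε > 0, ∃ ρ > 0, ∀ c c' : C(I, X),
    (∀ t, dist (c t) (c 0) < δ) → (∀ t, dist (c' t) (c' 0) < δ) →
    dist (c 0) (c' 0) < ρ → dist (c 1) (c' 1) < ρ → Cl ε c c' := by
  obtain ⟨δ, hδ, h0⟩ := small_hom hX
  refine ⟨δ / 3, by linarith, fun ε hε => ?_⟩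
  obtain ⟨ρ, hρ, hp⟩ := hX.path (min ε (δ / 3)) (lt_min hε (by linarith))
  refine ⟨min ρ (δ / 3), lt_min hρ (by linarith), fun c c' hc hc' d0 d1 => ?_⟩
  obtain ⟨κ, a1, a2, a3⟩ := hp (c 0) (c 0) (c' 0) (mem_ball_self hρ) (by
    rw [mem_ball, dist_comm]; exact lt_of_lt_of_le d0 (min_le_left _ _))
  obtain ⟨κ', b1, b2, b3⟩ := hp (c 1) (c 1) (c' 1) (mem_ball_self hρ) (by
    rw [mem_ball, dist_comm]; exact lt_of_lt_of_le d1 (min_le_left _ _))
  let p0 : Path (c 0) (c' 0) := ⟨κ, a1, a2⟩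
  let p1 : Path (c 1) (c' 1) := ⟨κ', b1, b2⟩
  have a4 : ∀ t, dist (κ t) (c 0) < min ε (δ / 3) := a3
  have b4 : ∀ t, dist (κ' t) (c 1) < min ε (δ / 3) := b3
  refine ⟨p0, p1, fun t => lt_of_lt_of_le (a3 t) (min_le_left _ _),
    fun t => lt_of_lt_of_le (b3 t) (min_le_left _ _), ?_⟩
  have m1 : min ε (δ / 3) ≤ δ / 3 := min_le_right _ _
  have m2 : min ρ (δ / 3) ≤ δ / 3 := min_le_right _ _
  have h5 : ((pth c).trans p1).Homotopic (p0.trans (pth c')) := by
    apply h0 (c 0)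
    · refine trans_mem (S := {z | dist z (c 0) < δ}) (fun t => ?_) (fun t => ?_)
      · show dist (c t) (c 0) < δ
        linarith [hc t]
      · show dist (κ' t) (c 0) < δ
        have := dist_triangle (κ' t) (c 1) (c 0)
        linarith [b4 t, hc 1]
    · refine trans_mem (S := {z | dist z (c 0) < δ}) (fun t => ?_) (fun t => ?_)
      · show dist (κ t) (c 0) < δ
        linarith [a4 t]
      · show dist (c' t) (c 0) < δ
        have := dist_triangle_right (c' t) (c 0) (c' 0)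
        linarith [hc' t]
  exact Path.Homotopic.Quotient.eq.mpr h5

theorem cl_of_hom {r : ℝ} (hr : 0 < r) {c c' : C(I, X)} (h : c.HomotopicRel c' {0, 1}) :
    Cl r c c' := by
  have gen : ∀ {x y x' y' : X} (_ : x' = x) (_ : y' = y) (p : Path x y) (p' : Path x' y'),
      (p : C(I, X)).HomotopicRel (p' : C(I, X)) {0, 1} → ∃ (k0 : Path x x') (k1 : Path y y'),
        (∀ t, dist (k0 t) x < r) ∧ (∀ t, dist (k1 t) y < r) ∧
          (Q p).trans (Q k1) = (Q k0).trans (Q p') := by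
    intro x y x' y' hx hy p p' hp
    subst hx
    subst hy
    refine ⟨Path.refl _, Path.refl _, fun t => ?_, fun t => ?_, ?_⟩
    · show dist x' x' < r
      rw [dist_self]; exact hr
    · show dist y' y' < r
      rw [dist_self]; exact hr
    · have e : Q p = Q p' := Path.Homotopic.Quotient.eq.mpr hp
      show (Q p).trans (Path.Homotopic.Quotient.refl _) =
        (Path.Homotopic.Quotient.refl _).trans (Q p')
      rw [Path.Homotopic.Quotient.refl_trans, Path.Homotopic.Quotient.trans_refl, e]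
  obtain ⟨H⟩ := id h
  have e0 : c' 0 = c 0 := by
    have h1 := H.apply_one 0
    have h2 := H.eq_fst 1 (show (0 : I) ∈ ({0, 1} : Set I) by simp)
    rw [← h1, h2]
  have e1 : c' 1 = c 1 := by
    have h1 := H.apply_one 1
    have h2 := H.eq_fst 1 (show (1 : I) ∈ ({0, 1} : Set I) by simp)
    rw [← h1, h2]
  exact gen e0 e1 (pth c) (pth c') h

theorem hom_of_cl (hX : ULC X) : ∃ δ > 0, ∀ c c' : C(I, X), Cl δ c c' → c 0 = c' 0 →
    c 1 = c' 1 → c.HomotopicRel c' {0, 1} := by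
  obtain ⟨δ, hδ, h0⟩ := small_hom hX
  refine ⟨δ, hδ, fun c c' h e0 e1 => ?_⟩
  have gen : ∀ {x y x' y' : X} (_ : x = x') (_ : y = y') (p : Path x y) (p' : Path x' y')
      (k0 : Path x x') (k1 : Path y y'), (∀ t, dist (k0 t) x < δ) → (∀ t, dist (k1 t) y < δ) →
        (Q p).trans (Q k1) = (Q k0).trans (Q p') →
      (p : C(I, X)).HomotopicRel (p' : C(I, X)) {0, 1} := by
    intro x y x' y' hx hy p p' k0 k1 s0 s1 h2
    subst hx
    subst hy
    have f0 : Q k0 = Path.Homotopic.Quotient.refl _ := Path.Homotopic.Quotient.eq.mpr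
      (h0 x _ _ k0 (Path.refl _) s0 (fun t => by show dist x x < δ; rw [dist_self]; exact hδ))
    have f1 : Q k1 = Path.Homotopic.Quotient.refl _ := Path.Homotopic.Quotient.eq.mpr
      (h0 y _ _ k1 (Path.refl _) s1 (fun t => by show dist y y < δ; rw [dist_self]; exact hδ))
    rw [f0, f1, Path.Homotopic.Quotient.refl_trans, Path.Homotopic.Quotient.trans_refl] at h2
    exact Path.Homotopic.Quotient.eq.mp h2
  obtain ⟨k0, k1, s0, s1, h2⟩ := h
  exact gen e0 e1 (pth c) (pth c') k0 k1 s0 s1 h2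

/-- The path `c` is homotopic to a path of size `r`. -/
def Dg (r : ℝ) (c : C(I, X)) : Prop :=
  ∃ d : Path (c 0) (c 1), (∀ t, dist (d t) (c 0) < r) ∧ Q d = Q (pth c)

theorem dg_of_cl {r : ℝ} {c : C(I, X)} {p : X} (h : Cl r (ContinuousMap.const I p) c) :
    Dg (2 * r) c := by
  have d0 := h.dist0
  obtain ⟨k0, k1, h0, h1, h2⟩ := h
  have hr : 0 < r := lt_of_le_of_lt dist_nonneg (h0 0)
  have hp : ∀ t, (ContinuousMap.const I p : C(I, X)) t = p := fun t => rfl
  refine ⟨k0.symm.trans k1, ?_, ?_⟩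
  · refine trans_mem (S := {z | dist z (c 0) < 2 * r}) (fun t => ?_) (fun t => ?_)
    · show dist (k0.symm t) (c 0) < 2 * r
      have a1 : dist (k0.symm t) p < r := h0 _
      have := dist_triangle (k0.symm t) p (c 0)
      rw [hp] at d0
      linarith
    · show dist (k1 t) (c 0) < 2 * r
      have a1 : dist (k1 t) p < r := h1 _
      have := dist_triangle (k1 t) p (c 0)
      rw [hp] at d0
      linarith
  · let k0' : Path p (c 0) := k0
    let k1' : Path p (c 1) := k1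
    have h2' : (Path.Homotopic.Quotient.refl p).trans (Q k1') = (Q k0').trans (Q (pth c)) := h2
    rw [Path.Homotopic.Quotient.refl_trans] at h2'
    have h4 : (Q k0').symm.trans (Q k1') = Q (pth c) := by
      rw [h2', ← Path.Homotopic.Quotient.trans_assoc, Path.Homotopic.Quotient.symm_trans,
        Path.Homotopic.Quotient.refl_trans]
    exact h4

end Pool.Agent.T6.H46.DL
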