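import Pool.Agent.T6.H46.DL.Strip

set_option autoImplicit false

open Filter Topology Set Metric unitInterval

namespace Pool.Agent.T6.H46.DL

open Pool.Agent.H789R2.AN Pool.Agent.H789R2.GP Pool.Agent.H721R2 Pool.Agent.T6.H66.PS

variable {X : Type*} [MetricSpace X]

/-- coarse transversality -/
def CT (F : X ≃ₜ X) (V : Set (X × X)) : Prop :=
  ∀ K : ℕ, ∀ η > 0, ∃ m : ℕ, ∀ (x y z : X) (γ : Path x z) (ξ : Path y z), Shr F γ →
    Shr F.symm ξ → len V (γ.trans ξ.symm) ≤ K → ∀ k ≥ m, dist (F^[k] x) (F^[k] z) ≤ η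

theorem quot_alg {a b c d : X} (A : Path.Homotopic.Quotient a b) (B : Path.Homotopic.Quotient b c)
    (C : Path.Homotopic.Quotient a d) (D : Path.Homotopic.Quotient d c)
    (h : A.trans B = C.trans D) : B.trans D.symm = A.symm.trans C := by
  calc B.trans D.symm = (A.symm.trans (A.trans B)).trans D.symm := by
        rw [← Path.Homotopic.Quotient.trans_assoc A.symm A B, Path.Homotopic.Quotient.symm_trans,
          Path.Homotopic.Quotient.refl_trans]
    _ = (A.symm.trans (C.trans D)).trans D.symm := by rw [h]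
    _ = A.symm.trans C := by
        rw [Path.Homotopic.Quotient.trans_assoc, Path.Homotopic.Quotient.trans_assoc,
          Path.Homotopic.Quotient.trans_symm, Path.Homotopic.Quotient.trans_refl]

theorem len_cast {V : Set (X × X)} {x y x' y' : X} (p : Path x y) (hx : x' = x) (hy : y' = y) :
    len V (p.cast hx hy) = len V p := by
  subst hx
  subst hy
  rfl

theorem Lf_of_CT [CompactSpace X] {g F : X ≃ₜ X} {c : ℝ} (h : LP g c) (hX : ULC X) {n : ℕ}
    (hn : 1 ≤ n) (hg : ∀ k x, g^[k] x = F^[n * k] x) (hg' : ∀ k x, g.symm^[k] x = F.symm^[n * k] x)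
    (hgF : ∀ x, F (g x) = g (F x)) {V : Set (X × X)} (hV : Nb V) (hCT : CT F V) :
    ∀ a s, WS g a s → Lf g a s := by
  intro a s has υ hυ0
  obtain ⟨η, hη, hloc⟩ := local_lift h
  obtain ⟨γ, hγ0, hγ1⟩ := leaf_conn h hX a s has
  let γ₀ : Path a s := ⟨vp γ, by show (γ 0).val = a; rw [hγ0], by show (γ 1).val = s; rw [hγ1]⟩
  have hγs : Shr F γ₀ := shr_leaf h hn hg γ
  obtain ⟨ε, hε, hV'⟩ := id hV
  obtain ⟨N0, hN0, hN0'⟩ := exists_modulus (vp υ) hε
  obtain ⟨m, hm⟩ := hCT (N0 + len V γ₀) η hη
  have hcomm : ∀ x, F (g.symm x) = g.symm (F x) := comm_symm_right hgF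
  let υm : C(I, SM g.symm) := ⟨fun t => ⟨F^[m] (υ t).val⟩,
    (SM.continuous_mapIter (g := g.symm) (φ := F) hcomm m).comp υ.continuous⟩
  obtain ⟨N, hN, hN'⟩ := exists_modulus υm hη
  have hNp : (0 : ℝ) < N := by exact_mod_cast hN
  have hmem : ∀ i : ℕ, min 1 ((i : ℝ) / N) ∈ I := fun i =>
    ⟨le_min zero_le_one (by positivity), min_le_left _ _⟩
  let τ : ℕ → I := fun i => ⟨min 1 ((i : ℝ) / N), hmem i⟩
  have key : ∀ i ≤ N, ∃ Γ : C(I, Pr g), (Γ 0).y = s ∧ ∀ r, (Γ r).x = (υ (min r (τ i))).val := by
    intro i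
    induction i with
    | zero =>
      intro _
      refine ⟨ContinuousMap.const I ⟨a, s, has⟩, rfl, fun r => ?_⟩
      have e0 : τ 0 = 0 := by
        apply Subtype.ext
        show min 1 (((0 : ℕ) : ℝ) / N) = 0
        simp
      have e1 : min r (τ 0) = 0 := by
        rw [e0]
        exact le_antisymm (min_le_right _ _) (le_min r.2.1 le_rfl)
      rw [e1, hυ0]
      rfl
    | succ i ih =>
      intro hi
      obtain ⟨Γ, hΓ0, hΓ⟩ := ih (by omega)
      set t : I := τ i with ht
      set t' : I := τ (i + 1) with ht'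
      have hiN : ((i + 1 : ℕ) : ℝ) ≤ N := by exact_mod_cast hi
      have e1 : ((i + 1 : ℕ) : ℝ) / N ≤ 1 := by rw [div_le_one hNp]; exact hiN
      have e2 : ((i + 1 : ℕ) : ℝ) / N = (i : ℝ) / N + 1 / N := by push_cast; ring
      have e3 : 0 < 1 / (N : ℝ) := by positivity
      have tv : (t : ℝ) = (i : ℝ) / N := by
        show min 1 ((i : ℝ) / N) = _
        exact min_eq_right (by linarith)
      have tv' : (t' : ℝ) = (i : ℝ) / N + 1 / N := by
        show min 1 (((i + 1 : ℕ) : ℝ) / N) = _
        rw [min_eq_right e1, e2]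
      have htt : (t' : ℝ) - t = 1 / N := by rw [tv, tv']; ring
      have hlt : (t : ℝ) < t' := by linarith
      let Γb : C(I, Pr g) := ⟨fun r => Γ (min r t), Γ.continuous.comp (continuous_id.min continuous_const)⟩
      have hΓb : ∀ r, (Γb r).x = (υ (min r t)).val := by
        intro r
        show (Γ (min r t)).x = _
        rw [hΓ, min_assoc, min_self]
      have m1 : min (1 : I) t = t := min_eq_right t.2.2
      have m0 : min (0 : I) t = 0 := min_eq_left t.2.1
      have hb1y : (Γb 1).y = (Γ t).y := by show (Γ (min 1 t)).y = _; rw [m1]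
      have hb1x : (Γb 1).x = (υ t).val := by rw [hΓb, m1]
      have hb0y : (Γb 0).y = s := by show (Γ (min 0 t)).y = _; rw [m0, hΓ0]
      have hb0x : (Γb 0).x = a := by rw [hΓb, m0, hυ0]
      obtain ⟨γ', h1, h2⟩ := leaf_conn h hX _ _ (Γb 1).h
      let γ₁ : Path (Γb 1).x (Γb 1).y := ⟨vp γ', by show (γ' 0).val = _; rw [h1],
        by show (γ' 1).val = _; rw [h2]⟩
      have hγ₁ : Shr F γ₁ := shr_leaf h hn hg γ'
      let γ₀' : Path (Γb 0).x (Γb 0).y := γ₀.cast hb0x hb0y
      have hγ₀' : Shr F γ₀' := hγs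
      have hst := strip hX Γb γ₀' γ₁ (hγ₀'.g hn hg) (hγ₁.g hn hg)
      have hξ : Shr F.symm (pth (yp Γb)) := shr_leaf h.symm hn hg' (sndPath Γb)
      have hlen1 : len V (pth (xp Γb)) ≤ N0 := by
        apply len_le
        apply HomLen.of_modulus _ hN0
        intro r r' hr
        apply hV'
        show dist (Γb r).x (Γb r').x < ε
        rw [hΓb, hΓb]
        apply hN0'
        refine le_trans ?_ hr
        rcases le_total r t with a1 | a1 <;> rcases le_total r' t with a2 | a2
        · rw [min_eq_left a1, min_eq_left a2]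
        · rw [min_eq_left a1, min_eq_right a2]
          have b1 : (r : ℝ) ≤ t := a1
          have b2 : (t : ℝ) ≤ r' := a2
          rw [abs_of_nonpos (by linarith), abs_of_nonpos (by linarith)]
          linarith
        · rw [min_eq_right a1, min_eq_left a2]
          have b1 : (t : ℝ) ≤ r := a1
          have b2 : (r' : ℝ) ≤ t := a2
          rw [abs_of_nonneg (by linarith), abs_of_nonneg (by linarith)]
          linarith
        · rw [min_eq_right a1, min_eq_right a2]
          simp
      have hlen : len V (γ₁.trans (pth (yp Γb)).symm) ≤ N0 + len V γ₀ := by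
        have h5 : (γ₁.trans (pth (yp Γb)).symm).Homotopic ((pth (xp Γb)).symm.trans γ₀') :=
          Path.Homotopic.Quotient.eq.mp (quot_alg _ _ _ _ hst)
        rw [len_homotopic h5]
        have h6 : len V γ₀' = len V γ₀ := len_cast γ₀ hb0x hb0y
        have h7 : len V ((pth (xp Γb)).symm.trans γ₀') ≤ len V (pth (xp Γb)).symm + len V γ₀' :=
          len_trans hV (pth (xp Γb)).symm γ₀'
        have h8 : len V (pth (xp Γb)).symm = len V (pth (xp Γb)) := len_symm hV (pth (xp Γb))
        rw [h6, h8] at h7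
        exact h7.trans (Nat.add_le_add_right hlen1 _)
      have hk := hm _ _ _ γ₁ (pth (yp Γb)) hγ₁ hξ hlen
      -- the local lift
      have hseg : ∀ r : I, (t : ℝ) + r * (t' - t) ∈ I := fun r => by
        have b1 := r.2.1
        have b2 := r.2.2
        have b3 := t.2.1
        have b4 := t'.2.2
        constructor
        · nlinarith
        · nlinarith
      let seg : I → I := fun r => ⟨(t : ℝ) + r * (t' - t), hseg r⟩
      have hsegc : Continuous seg := Continuous.subtype_mk (by fun_prop) _
      have hseg0 : seg 0 = t := by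
        apply Subtype.ext
        show (t : ℝ) + (0 : ℝ) * (t' - t) = t
        ring
      let υp : C(I, SM g.symm) := ⟨fun r => υ (seg r), υ.continuous.comp hsegc⟩
      let υ' : C(I, SM g.symm) := ⟨fun r => υm (seg r), υm.continuous.comp hsegc⟩
      obtain ⟨x', hx'⟩ := hloc υ' (F^[m] (Γ t).y) (by
        intro r
        show dist (υm (seg 0)) (υm (seg r)) ≤ η
        apply (hN' _ _ _).le
        rw [hseg0]
        show |(t : ℝ) - ((t : ℝ) + r * (t' - t))| ≤ 1 / N
        have b1 := r.2.1
        have b2 := r.2.2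
        have e5 : (t : ℝ) - ((t : ℝ) + r * (t' - t)) = - (r * (t' - t)) := by ring
        rw [e5, abs_neg, abs_of_nonneg (by nlinarith), htt]
        exact mul_le_of_le_one_left e3.le b2) (by
        show SR g η (F^[m] (υ (seg 0)).val) (F^[m] (Γ t).y)
        rw [hseg0]
        intro j
        rw [hg, hg, ← Function.iterate_add_apply, ← Function.iterate_add_apply, ← hb1x, ← hb1y]
        exact hk _ (by omega))
      obtain ⟨x, Δ, hΔ0, -, hΔ⟩ := LO_of_iter (φ := F) hgF m υp υ' (Γ t).y x' (fun r => rfl) hx'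
      let ρ : I → I := fun r => Set.projIcc 0 1 zero_le_one (((r : ℝ) - t) / (t' - t))
      have hρc : Continuous ρ := continuous_projIcc.comp (by fun_prop)
      have hρt : ρ t = 0 := by
        show Set.projIcc 0 1 zero_le_one (((t : ℝ) - t) / (t' - t)) = 0
        have e9 : ((t : ℝ) - t) / (t' - t) = 0 := by
          rw [_root_.sub_self, zero_div]
        rw [e9]
        exact Set.projIcc_of_le_left _ le_rfl
      let Γ' : C(I, Pr g) := ⟨fun r => if r ≤ t then Γ r else Δ (ρ r),
        Continuous.if_le Γ.continuous (Δ.continuous.comp hρc) continuous_id continuous_const (by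
          intro r hr
          have hr' : r = t := hr
          rw [hr']
          show Γ t = Δ (ρ t)
          rw [hρt]
          apply Pr.ext
          · rw [hΔ]
            show _ = (υ (seg 0)).val
            rw [hseg0, hΓ, min_self]
          · rw [hΔ0])⟩
      refine ⟨Γ', ?_, fun r => ?_⟩
      · show (if (0 : I) ≤ t then Γ 0 else Δ (ρ 0)).y = s
        rw [if_pos (show (0 : I) ≤ t from t.2.1), hΓ0]
      · show (if r ≤ t then Γ r else Δ (ρ r)).x = _
        split_ifs with hr
        · rw [hΓ, min_eq_left hr, min_eq_left (hr.trans hlt.le)]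
        · rw [hΔ]
          show (υ (seg (ρ r))).val = _
          congr 2
          apply Subtype.ext
          have hr2 : (t : ℝ) < r := lt_of_not_ge hr
          have hd : (0 : ℝ) < t' - t := by linarith
          show (t : ℝ) + ((Set.projIcc (0 : ℝ) 1 zero_le_one (((r : ℝ) - t) / (t' - t)) : I) : ℝ) *
            (t' - t) = _
          rcases le_total r t' with h7 | h7
          · rw [min_eq_left h7, Set.projIcc_of_mem zero_le_one (x := ((r : ℝ) - t) / (t' - t))
              ⟨div_nonneg (by linarith) hd.le, by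
                rw [div_le_one hd]
                have : (r : ℝ) ≤ t' := h7
                linarith⟩]
            show (t : ℝ) + ((r : ℝ) - t) / (t' - t) * (t' - t) = r
            rw [div_mul_cancel₀ _ hd.ne']
            ring
          · rw [min_eq_right h7, Set.projIcc_of_right_le zero_le_one (by
              rw [le_div_iff₀ hd]
              have : (t' : ℝ) ≤ r := h7
              linarith)]
            show (t : ℝ) + 1 * (t' - t) = t'
            ring
  obtain ⟨Γ, hΓ0, hΓ⟩ := key N le_rfl
  have eN : τ N = 1 := by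
    apply Subtype.ext
    show min 1 ((N : ℝ) / N) = 1
    rw [div_self hNp.ne', min_self]
  refine ⟨(Γ 1).y, Γ, hΓ0, rfl, fun t => ?_⟩
  rw [hΓ, eN, min_eq_left (show t ≤ 1 from t.2.2)]

end Pool.Agent.T6.H46.DL
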