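import Pool.Agent.T6.H46.DL.Cl

set_option autoImplicit false

open Filter Topology Set Metric unitInterval

namespace Pool.Agent.T6.H46.DL

open Pool.Agent.H789R2.AN Pool.Agent.H789R2.GP Pool.Agent.H721R2 Pool.Agent.T6.H66.PS

section top

variable {M : Type*} [TopologicalSpace M] {V : Set (M × M)}

theorem HomLen.decomp (hV : ∀ x, (x, x) ∈ V) {n : ℕ} {x y : M} {p : Path x y}
    (h : HomLen V n p) :
    (n = 0 → ∃ p' : Path x y, (∀ s t, (p' s, p' t) ∈ V) ∧ p.Homotopic p') ∧
    ∀ m, n = m + 1 → ∃ (z : M) (p1 : Path x z) (p2 : Path z y), (∀ s t, (p1 s, p1 t) ∈ V) ∧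
      HomLen V m p2 ∧ p.Homotopic (p1.trans p2) := by
  induction h with
  | refl x =>
    refine ⟨fun _ => ⟨Path.refl x, fun s t => hV x, Path.Homotopic.refl _⟩, fun m hm => ?_⟩
    omega
  | @trans k x y z p q h1 h2 ih =>
    refine ⟨fun h => by omega, fun m hm => ?_⟩
    obtain rfl : k = m := by omega
    exact ⟨y, p, q, h1, h2, Path.Homotopic.refl _⟩
  | homotopic p q h1 h2 ih =>
    refine ⟨fun h => ?_, fun m hm => ?_⟩
    · obtain ⟨p', a1, a2⟩ := ih.1 h
      exact ⟨p', a1, h1.symm.trans a2⟩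
    · obtain ⟨z, p1, p2, a1, a2, a3⟩ := ih.2 m hm
      exact ⟨z, p1, p2, a1, a2, h1.symm.trans a3⟩

end top

variable {X : Type*} [MetricSpace X]

/-- classes from `a` to `b` of the paths of length `n` between points near `a` and `b` -/
def CS (V : Set (X × X)) (r : ℝ) (n : ℕ) (a b : X) : Set (Path.Homotopic.Quotient a b) :=
  {q | ∃ (x y : X) (k0 : Path a x) (k1 : Path b y) (p : Path x y), (∀ t, dist (k0 t) a < r) ∧
    (∀ t, dist (k1 t) b < r) ∧ HomLen V n p ∧ q = ((Q k0).trans (Q p)).trans (Q k1).symm}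

/-- the same for small paths -/
def CD (V : Set (X × X)) (r : ℝ) (a b : X) : Set (Path.Homotopic.Quotient a b) :=
  {q | ∃ (x y : X) (k0 : Path a x) (k1 : Path b y) (p : Path x y), (∀ t, dist (k0 t) a < r) ∧
    (∀ t, dist (k1 t) b < r) ∧ (∀ s t, (p s, p t) ∈ V) ∧
    q = ((Q k0).trans (Q p)).trans (Q k1).symm}

theorem CD_sub {δ r : ℝ} {V : Set (X × X)}
    (h0 : ∀ (a x y : X) (p q : Path x y), (∀ t, dist (p t) a < δ) → (∀ t, dist (q t) a < δ) →
      p.Homotopic q) (hr : 4 * r ≤ δ) (hV : ∀ x y : X, (x, y) ∈ V → dist x y < r) (a b : X) :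
    (CD V r a b).Subsingleton := by
  have key : ∀ q ∈ CD V r a b, ∃ d : Path a b, (∀ t, dist (d t) a < δ) ∧ q = Q d := by
    rintro q ⟨x, y, k0, k1, p, s0, s1, sp, rfl⟩
    have dx : dist x a < r := by have := s0 1; rwa [k0.target] at this
    have dy : dist y b < r := by have := s1 1; rwa [k1.target] at this
    have hr0 : 0 < r := lt_of_le_of_lt dist_nonneg dx
    refine ⟨(k0.trans p).trans k1.symm, ?_, rfl⟩
    have dp : ∀ t, dist (p t) x < r := fun t => by
      have := hV _ _ (sp t 0)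
      rwa [p.source] at this
    refine trans_mem (S := {z | dist z a < δ}) (trans_mem (S := {z | dist z a < δ}) ?_ ?_) ?_
    · intro t
      show dist (k0 t) a < δ
      linarith [s0 t]
    · intro t
      show dist (p t) a < δ
      have := dist_triangle (p t) x a
      linarith [dp t]
    · intro t
      show dist (k1.symm t) a < δ
      have a1 : dist (k1.symm t) b < r := s1 _
      have a2 := dp 1
      rw [p.target] at a2
      have a3 := dist_triangle (k1.symm t) b y
      have a4 := dist_triangle (k1.symm t) y a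
      have a5 := dist_triangle y x a
      rw [dist_comm b y] at a3
      linarith
  intro q hq q' hq'
  obtain ⟨d, hd, rfl⟩ := key q hq
  obtain ⟨d', hd', rfl⟩ := key q' hq'
  exact Path.Homotopic.Quotient.eq.mpr (h0 a _ _ d d' hd hd')

theorem CS_fin {δ r : ℝ} {V : Set (X × X)} (hVr : ∀ x, (x, x) ∈ V)
    (h0 : ∀ (a x y : X) (p q : Path x y), (∀ t, dist (p t) a < δ) → (∀ t, dist (q t) a < δ) →
      p.Homotopic q) (hr : 4 * r ≤ δ) (hV : ∀ x y : X, (x, y) ∈ V → dist x y < r)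
    (S : Finset X) (hS : ∀ z, ∃ e ∈ S, ∃ w : Path e z, ∀ t, dist (w t) e < r) (n : ℕ) (a b : X) :
    (CS V r n a b).Finite := by
  induction n generalizing a b with
  | zero =>
    refine ((CD_sub h0 hr hV a b).finite).subset ?_
    rintro q ⟨x, y, k0, k1, p, s0, s1, hp, rfl⟩
    obtain ⟨p', hp1, hp2⟩ := (hp.decomp hVr).1 rfl
    refine ⟨x, y, k0, k1, p', s0, s1, hp1, ?_⟩
    rw [show Q p = Q p' from Path.Homotopic.Quotient.eq.mpr hp2]
  | succ n ih =>
    have hfin : (⋃ e ∈ S, Set.image2 (fun (α : Path.Homotopic.Quotient a e)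
        (β : Path.Homotopic.Quotient e b) => α.trans β) (CD V r a e) (CS V r n e b)).Finite := by
      refine Set.Finite.biUnion S.finite_toSet fun e _ => ?_
      exact Set.Finite.image2 _ (CD_sub h0 hr hV a e).finite (ih e b)
    refine hfin.subset ?_
    rintro q ⟨x, y, k0, k1, p, s0, s1, hp, rfl⟩
    obtain ⟨z, p1, p2, h1, h2, h3⟩ := (hp.decomp hVr).2 n rfl
    obtain ⟨e, he, w, hw⟩ := hS z
    rw [mem_iUnion₂]
    refine ⟨e, he, ((Q k0).trans (Q p1)).trans (Q w).symm, ⟨x, z, k0, w, p1, s0, hw, h1, rfl⟩,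
      ((Q w).trans (Q p2)).trans (Q k1).symm, ⟨z, y, w, k1, p2, hw, s1, h2, rfl⟩, ?_⟩
    have e1 : Q p = (Q p1).trans (Q p2) := Path.Homotopic.Quotient.eq.mpr h3
    show (((Q k0).trans (Q p1)).trans (Q w).symm).trans (((Q w).trans (Q p2)).trans (Q k1).symm) =
      ((Q k0).trans (Q p)).trans (Q k1).symm
    rw [e1]
    simp only [Path.Homotopic.Quotient.trans_assoc]
    congr 2
    rw [← Path.Homotopic.Quotient.trans_assoc (Q w).symm (Q w), Path.Homotopic.Quotient.symm_trans,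
      Path.Homotopic.Quotient.refl_trans]

/-- Among infinitely many paths of bounded homotopy length two are close. -/
theorem exists_cl [CompactSpace X] (hX : ULC X) : ∃ δ > 0, ∀ V : Set (X × X), Nb V →
    (∀ x y : X, (x, y) ∈ V → dist x y < δ) → ∀ ε > 0, ∀ (K : ℕ) (c : ℕ → C(I, X)),
      (∀ i, hl V (c i) ≤ K) → ∃ i j, i < j ∧ Cl ε (c i) (c j) := by
  classical
  obtain ⟨δ, hδ, h0⟩ := small_hom hX
  obtain ⟨δi, hδi, himp⟩ := cl_improve hX
  refine ⟨min (δ / 4) (δi / 4), lt_min (by linarith) (by linarith), fun V hV hVδ ε hε K c hc => ?_⟩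
  set r := min (δ / 4) (δi / 4) with hr
  have hr0 : 0 < r := lt_min (by linarith) (by linarith)
  have hr1 : 4 * r ≤ δ := by have := min_le_left (δ / 4) (δi / 4); linarith
  have hr2 : 4 * r ≤ δi := by have := min_le_right (δ / 4) (δi / 4); linarith
  obtain ⟨ρ, hρ, hρ'⟩ := himp ε hε
  -- the net
  obtain ⟨η, hη, hp⟩ := hX.path r hr0
  set θ := min η (ρ / 2) with hθ
  have hθ0 : 0 < θ := lt_min hη (by linarith)
  obtain ⟨S, -, hS⟩ := (isCompact_univ : IsCompact (univ : Set X)).elim_nhds_subcover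
    (fun x => ball x θ) (fun x _ => ball_mem_nhds x hθ0)
  have hS' : ∀ z, ∃ e ∈ S, dist e z < ρ / 2 ∧ ∃ w : Path e z, ∀ t, dist (w t) e < r := by
    intro z
    have h5 := hS (mem_univ z)
    rw [mem_iUnion₂] at h5
    obtain ⟨e, he, he'⟩ := h5
    obtain ⟨κ, a1, a2, a3⟩ := hp e e z (mem_ball_self hη)
      (ball_subset_ball (min_le_left _ _) he')
    rw [mem_ball, dist_comm] at he'
    exact ⟨e, he, lt_of_lt_of_le he' (min_le_right _ _), ⟨κ, a1, a2⟩, a3⟩
  have hfin := CS_fin (V := V) (r := r) hV.refl h0 hr1 hVδ S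
    (fun z => by obtain ⟨e, he, -, w, hw⟩ := hS' z; exact ⟨e, he, w, hw⟩) K
  let T : Set (Σ ab : X × X, Path.Homotopic.Quotient ab.1 ab.2) :=
    ⋃ ab ∈ (S ×ˢ S : Finset (X × X)), (Sigma.mk ab) '' CS V r K ab.1 ab.2
  have hT : T.Finite := Set.Finite.biUnion (S ×ˢ S).finite_toSet fun ab _ =>
    (hfin ab.1 ab.2).image _
  let P : (Σ ab : X × X, Path.Homotopic.Quotient ab.1 ab.2) → C(I, X) → Prop := fun t c =>
    dist t.1.1 (c 0) < ρ / 2 ∧ dist t.1.2 (c 1) < ρ / 2 ∧
      ∃ (k0 : Path t.1.1 (c 0)) (k1 : Path t.1.2 (c 1)), (∀ s, dist (k0 s) t.1.1 < r) ∧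
        (∀ s, dist (k1 s) t.1.2 < r) ∧ t.2 = ((Q k0).trans (Q (pth c))).trans (Q k1).symm
  have hcode : ∀ i, ∃ t ∈ T, P t (c i) := by
    intro i
    obtain ⟨a, ha, da, k0, hk0⟩ := hS' (c i 0)
    obtain ⟨b, hb, db, k1, hk1⟩ := hS' (c i 1)
    refine ⟨⟨(a, b), ((Q k0).trans (Q (pth (c i)))).trans (Q k1).symm⟩, ?_, da, db, k0, k1, hk0,
      hk1, rfl⟩
    show _ ∈ ⋃ ab ∈ (S ×ˢ S : Finset (X × X)), (Sigma.mk ab) '' CS V r K ab.1 ab.2
    rw [mem_iUnion₂]
    exact ⟨(a, b), Finset.mk_mem_product ha hb, _, ⟨_, _, k0, k1, pth (c i), hk0, hk1,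
      (homLen_iff hV _).mpr (hc i), rfl⟩, rfl⟩
  choose code hcT hcP using hcode
  obtain ⟨i, j, hij, he⟩ := hT.exists_lt_map_eq_of_forall_mem hcT
  refine ⟨i, j, hij, ?_⟩
  have hPi := hcP i
  have hPj := hcP j
  rw [← he] at hPj
  obtain ⟨di0, di1, k0, k1, s0, s1, hi⟩ := hPi
  obtain ⟨dj0, dj1, l0, l1, u0, u1, hj⟩ := hPj
  have hr4 : ∀ {x y z : X} (k : Path x y) (l : Path x z), (∀ s, dist (k s) x < r) →
      (∀ s, dist (l s) x < r) → ∀ s, dist ((k.symm.trans l) s) y < 4 * r := by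
    intro x y z k l hk hl
    have dy : dist y x < r := by have := hk 1; rwa [k.target] at this
    refine trans_mem (S := {w | dist w y < 4 * r}) (fun t => ?_) (fun t => ?_)
    · show dist (k.symm t) y < 4 * r
      have a1 : dist (k.symm t) x < r := hk _
      have := dist_triangle_right (k.symm t) y x
      linarith
    · show dist (l t) y < 4 * r
      have := dist_triangle_right (l t) y x
      linarith [hl t]
  apply hρ'
  · refine Cl.mono (r := 4 * r) ?_ hr2
    refine ⟨k0.symm.trans l0, k1.symm.trans l1, hr4 k0 l0 s0 u0, hr4 k1 l1 s1 u1, ?_⟩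
    show (Q (pth (c i))).trans ((Q k1).symm.trans (Q l1)) =
      ((Q k0).symm.trans (Q l0)).trans (Q (pth (c j)))
    have h5 : ((Q k0).trans (Q (pth (c i)))).trans (Q k1).symm =
      ((Q l0).trans (Q (pth (c j)))).trans (Q l1).symm := by rw [← hi, ← hj]
    calc (Q (pth (c i))).trans ((Q k1).symm.trans (Q l1))
        = ((Q k0).symm.trans (((Q k0).trans (Q (pth (c i)))).trans (Q k1).symm)).trans (Q l1) := by
          simp only [Path.Homotopic.Quotient.trans_assoc]
          rw [← Path.Homotopic.Quotient.trans_assoc (Q k0).symm (Q k0),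
            Path.Homotopic.Quotient.symm_trans, Path.Homotopic.Quotient.refl_trans]
      _ = ((Q k0).symm.trans (((Q l0).trans (Q (pth (c j)))).trans (Q l1).symm)).trans (Q l1) := by
          rw [h5]
      _ = ((Q k0).symm.trans (Q l0)).trans (Q (pth (c j))) := by
          simp only [Path.Homotopic.Quotient.trans_assoc]
          rw [Path.Homotopic.Quotient.symm_trans, Path.Homotopic.Quotient.trans_refl]
  · have := dist_triangle_left (c i 0) (c j 0) (code i).1.1
    linarith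
  · have := dist_triangle_left (c i 1) (c j 1) (code i).1.2
    linarith

end Pool.Agent.T6.H46.DL
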