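import Pool.Agent.T6.H46.DL.Ext

set_option autoImplicit false

open Filter Topology Set Metric unitInterval

namespace Pool.Agent.T6.H46.DL

open Pool.Agent.H789R2.AN Pool.Agent.H789R2.GP Pool.Agent.H721R2 Pool.Agent.T6.H66.PS

section push

variable {M : Type*} [TopologicalSpace M]

/-- the image of a path under an iterate -/
def push (φ : M ≃ₜ M) (k : ℕ) (c : C(I, M)) : C(I, M) :=
  ⟨fun t => φ^[k] (c t), (φ.continuous.iterate k).comp c.continuous⟩

theorem push_push (φ : M ≃ₜ M) (k l : ℕ) (c : C(I, M)) :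
    push φ k (push φ l c) = push φ (k + l) c := by
  ext t
  exact (Function.iterate_add_apply φ k l (c t)).symm

theorem push_zero (φ : M ≃ₜ M) (c : C(I, M)) : push φ 0 c = c := by
  ext t; rfl

/-- homotopy length of a map -/
noncomputable def hl (V : Set (M × M)) (c : C(I, M)) : ℕ := len V (pth c)

end push

variable {X : Type*} [MetricSpace X]

theorem push_symm_push (φ : X ≃ₜ X) (k l : ℕ) (h : k ≤ l) (c : C(I, X)) :
    push φ.symm k (push φ l c) = push φ (l - k) c := by
  ext t
  show φ.symm^[k] (φ^[l] (c t)) = φ^[l - k] (c t)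
  have : l = k + (l - k) := by omega
  conv_lhs => rw [this, Function.iterate_add_apply, iterL]

/-- stable paths -/
def ShC (φ : X → X) (c : C(I, X)) : Prop := Shr φ (pth c)

theorem ShC.push {φ : X ≃ₜ X} {c : C(I, X)} (h : ShC φ c) (k : ℕ) : ShC φ (push φ k c) := by
  intro ε hε
  obtain ⟨m, hm⟩ := h ε hε
  refine ⟨m, fun j hj s t => ?_⟩
  show dist (φ^[j] (φ^[k] (c s))) (φ^[j] (φ^[k] (c t))) < ε
  rw [← Function.iterate_add_apply, ← Function.iterate_add_apply]
  exact hm _ (by omega) s t

/-- hyperbolicity at large scale -/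
def BF (F : X ≃ₜ X) (V : Set (X × X)) (N R : ℕ) : Prop :=
  ∀ c : C(I, X), R ≤ hl V c → 2 * hl V c ≤ max (hl V (push F N c)) (hl V (push F.symm N c))

theorem BF.symm {F : X ≃ₜ X} {V : Set (X × X)} {N R : ℕ} (h : BF F V N R) : BF F.symm V N R := by
  intro c hc
  have := h c hc
  rw [max_comm] at this
  exact this

theorem hl_small {V : Set (X × X)} {c : C(I, X)} (h : ∀ s t, (c s, c t) ∈ V) : hl V c ≤ 1 :=
  len_small h

theorem grow {F : X ≃ₜ X} {V : Set (X × X)} (hV : Nb V) {N R : ℕ} (hN : 1 ≤ N)
    (hBF : BF F V N R) {c : C(I, X)} (hc : ShC F c) (hR : max R 1 ≤ hl V c) :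
    2 * hl V c ≤ hl V (push F.symm N c) := by
  by_contra hcon
  push Not at hcon
  have hR1 : R ≤ hl V c := (le_max_left _ _).trans hR
  have h1 : 1 ≤ hl V c := (le_max_right _ _).trans hR
  have key : ∀ k : ℕ, hl V c ≤ hl V (push F (N * k) c) ∧
      2 * hl V (push F (N * k) c) ≤ hl V (push F (N * (k + 1)) c) := by
    intro k
    induction k with
    | zero =>
      rw [mul_zero, push_zero]
      refine ⟨le_rfl, ?_⟩
      have := hBF c hR1
      rcases le_max_iff.mp this with h2 | h2
      · rwa [zero_add, mul_one]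
      · omega
    | succ k ih =>
      obtain ⟨ih1, ih2⟩ := ih
      have h3 : hl V c ≤ hl V (push F (N * (k + 1)) c) := by omega
      refine ⟨h3, ?_⟩
      have := hBF (push F (N * (k + 1)) c) (hR1.trans h3)
      rw [push_push, push_symm_push F N _ (by nlinarith)] at this
      have e1 : N + N * (k + 1) = N * (k + 1 + 1) := by ring
      have e2 : N * (k + 1) - N = N * k := by
        rw [mul_add, mul_one, Nat.add_sub_cancel]
      rw [e1, e2] at this
      rcases le_max_iff.mp this with h2 | h2
      · exact h2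
      · omega
  have hpow : ∀ k : ℕ, k < hl V (push F (N * k) c) := by
    intro k
    induction k with
    | zero => rw [mul_zero, push_zero]; omega
    | succ k ih =>
      have := (key k).2
      omega
  obtain ⟨ε, hε, hV'⟩ := id hV
  obtain ⟨m, hm⟩ := hc ε hε
  have h5 : hl V (push F (N * (m + 1)) c) ≤ 1 := by
    apply hl_small
    intro s t
    apply hV'
    exact hm _ (by nlinarith) s t
  have := hpow (m + 1)
  omega

theorem shrink_bound {F : X ≃ₜ X} {V : Set (X × X)} (hV : Nb V) {N R : ℕ} (hN : 1 ≤ N)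
    (hBF : BF F V N R) {c : C(I, X)} (hc : ShC F c) :
    hl V (push F N c) ≤ max (max R 1) (hl V c / 2) := by
  by_contra hcon
  push Not at hcon
  obtain ⟨h1, h2⟩ := max_lt_iff.mp hcon
  have h3 := grow hV hN hBF (hc.push N) h1.le
  rw [push_symm_push F N N le_rfl, Nat.sub_self, push_zero] at h3
  omega

theorem bound_iter {F : X ≃ₜ X} {V : Set (X × X)} (hV : Nb V) {N R : ℕ} (hN : 1 ≤ N)
    (hBF : BF F V N R) {c : C(I, X)} (hc : ShC F c) (k : ℕ) :
    hl V (push F (N * k) c) ≤ max (max R 1) (hl V c) := by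
  induction k with
  | zero => rw [mul_zero, push_zero]; exact le_max_right _ _
  | succ k ih =>
    have h1 := shrink_bound hV hN hBF (hc.push (N * k))
    rw [push_push] at h1
    have e : N + N * k = N * (k + 1) := by ring
    rw [e] at h1
    refine h1.trans (max_le (le_max_left _ _) ?_)
    refine le_trans ?_ ih
    omega

theorem push_bound {F : X ≃ₜ X} {V : Set (X × X)} {B : ℕ}
    (hB : ∀ (x y : X) (p : Path x y), len V (p.map F.continuous) ≤ B * len V p) (k : ℕ)
    (c : C(I, X)) : hl V (push F k c) ≤ B ^ k * hl V c := by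
  induction k with
  | zero => rw [push_zero, pow_zero, one_mul]
  | succ k ih =>
    have h1 := hB _ _ (pth (push F k c))
    have h2 : hl V (push F (k + 1) c) = len V ((pth (push F k c)).map F.continuous) := by
      have e : push F (k + 1) c = push F 1 (push F k c) := by
        rw [push_push, add_comm]
      rw [e]
      rfl
    rw [h2, pow_succ']
    refine h1.trans ?_
    rw [mul_assoc]
    exact Nat.mul_le_mul_left _ ih

theorem all_bound {F : X ≃ₜ X} {V : Set (X × X)} (hV : Nb V) {N R B : ℕ} (hN : 1 ≤ N)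
    (hBF : BF F V N R) (hB1 : 1 ≤ B)
    (hB : ∀ (x y : X) (p : Path x y), len V (p.map F.continuous) ≤ B * len V p)
    {c : C(I, X)} (hc : ShC F c) (k : ℕ) :
    hl V (push F k c) ≤ B ^ N * max (max R 1) (hl V c) := by
  have h1 := Nat.div_add_mod k N
  have h2 := Nat.mod_lt k (show 0 < N by omega)
  have e : push F k c = push F (k % N) (push F (N * (k / N)) c) := by
    rw [push_push]
    congr 1
    omega
  rw [e]
  refine (push_bound hB _ _).trans ?_
  exact Nat.mul_le_mul (Nat.pow_le_pow_right hB1 h2.le) (bound_iter hV hN hBF hc _)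

theorem hl_coe {V : Set (X × X)} {x y : X} (p : Path x y) : hl V (p : C(I, X)) = len V p :=
  len_pth p

/-- Quadrilaterals bounded on one side are bounded. -/
theorem quad {F : X ≃ₜ X} {V : Set (X × X)} (hV : Nb V) {N R B : ℕ} (hN : 1 ≤ N)
    (hBF : BF F V N R)
    (hB : ∀ (x y : X) (p : Path x y), len V (p.map F.symm.continuous) ≤ B * len V p)
    {K : ℕ} {x y z : X} (γ : Path x z) (ξ : Path y z) (hγ : Shr F γ) (hξ : Shr F.symm ξ)
    (hK : len V (γ.trans ξ.symm) ≤ K) : len V γ ≤ 2 * (B ^ N * K) + 2 * max R 1 + K := by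
  by_cases hR : max R 1 ≤ len V γ
  swap
  · omega
  set ψ : X ≃ₜ X := iterHomeo F.symm N with hψ
  have h1 : 2 * len V γ ≤ len V (γ.map ψ.continuous) := by
    have h := grow hV hN hBF (c := (γ : C(I, X))) (fun ε hε => hγ ε hε) (by rwa [hl_coe])
    rw [hl_coe] at h
    have e : hl V (push F.symm N (γ : C(I, X))) = len V (γ.map ψ.continuous) :=
      hl_coe (V := V) (γ.map ψ.continuous)
    rwa [e] at h
  have h2 : len V (ξ.map ψ.continuous) ≤ max (max R 1) (len V ξ / 2) := by
    have h := shrink_bound hV hN hBF.symm (c := (ξ : C(I, X))) (fun ε hε => hξ ε hε)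
    rw [hl_coe] at h
    have e : hl V (push F.symm N (ξ : C(I, X))) = len V (ξ.map ψ.continuous) :=
      hl_coe (V := V) (ξ.map ψ.continuous)
    rwa [e] at h
  have h3 : len V ((γ.trans ξ.symm).map ψ.continuous) ≤ B ^ N * K := by
    have h := push_bound hB N ((γ.trans ξ.symm : Path x y) : C(I, X))
    rw [hl_coe] at h
    have e : hl V (push F.symm N ((γ.trans ξ.symm : Path x y) : C(I, X))) =
        len V ((γ.trans ξ.symm).map ψ.continuous) :=
      hl_coe (V := V) ((γ.trans ξ.symm).map ψ.continuous)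
    rw [e] at h
    exact h.trans (Nat.mul_le_mul_left _ hK)
  have alg : ∀ {a b d : X} (p : Path a d) (q : Path b d),
      (Q (p.trans q.symm)).trans (Q q) = Q p := by
    intro a b d p q
    show ((Q p).trans (Q q).symm).trans (Q q) = Q p
    rw [Path.Homotopic.Quotient.trans_assoc, Path.Homotopic.Quotient.symm_trans,
      Path.Homotopic.Quotient.trans_refl]
  have h4 : len V (γ.map ψ.continuous) ≤
      len V ((γ.trans ξ.symm).map ψ.continuous) + len V (ξ.map ψ.continuous) := by
    have h5 : (((γ.trans ξ.symm).trans ξ).map ψ.continuous).Homotopic (γ.map ψ.continuous) :=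
      Path.Homotopic.map (f := (ψ : C(X, X))) (Path.Homotopic.Quotient.eq.mp (alg γ ξ))
    rw [← len_homotopic h5, Path.map_trans]
    exact len_trans hV _ _
  have h6 : len V ξ ≤ K + len V γ := by
    have h7 : (Q (γ.trans ξ.symm).symm).trans (Q γ) = Q ξ := by
      have := alg γ ξ
      show (Q (γ.trans ξ.symm)).symm.trans (Q γ) = Q ξ
      rw [← this, ← Path.Homotopic.Quotient.trans_assoc, Path.Homotopic.Quotient.symm_trans,
        Path.Homotopic.Quotient.refl_trans]
    have h8 : ((γ.trans ξ.symm).symm.trans γ).Homotopic ξ := Path.Homotopic.Quotient.eq.mp h7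
    rw [← len_homotopic h8]
    refine (len_trans hV _ _).trans ?_
    rw [len_symm hV]
    omega
  have h9 : max (max R 1) (len V ξ / 2) ≤ max R 1 + len V ξ / 2 := max_le (by omega) (by omega)
  omega

end Pool.Agent.T6.H46.DL
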