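import Pool.Agent.T6.H46.DL.Len
import Pool.Agent.T6.H66.PS.Sub

set_option autoImplicit false

open Filter Topology Set Metric unitInterval

namespace Pool.Agent.T6.H46.DL

open Pool.Agent.H789R2.AN Pool.Agent.H789R2.GP Pool.Agent.H721R2 Pool.Agent.T6.H66.PS

variable {X : Type*} [MetricSpace X]

theorem small_hom (hX : ULC X) : ∃ δ > 0, ∀ (a x y : X) (p q : Path x y),
    (∀ t, dist (p t) a < δ) → (∀ t, dist (q t) a < δ) → p.Homotopic q := by
  obtain ⟨δ, hδ, h1⟩ := hX.homo 1 one_pos
  refine ⟨δ, hδ, fun a x y p q hp hq => ?_⟩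
  obtain ⟨H, h2, h3, h4, h5, -⟩ := h1 a (p : C(I, X)) (q : C(I, X)) (by simp) (by simp) hp hq
  refine ⟨⟨⟨⟨H, H.continuous⟩, h2, h3⟩, ?_⟩⟩
  intro t s hs
  rcases hs with rfl | rfl
  · exact h4 t
  · exact h5 t

theorem homotopic_of_map (φ : X ≃ₜ X) {x y : X} {p q : Path x y}
    (h : (p.map φ.continuous).Homotopic (q.map φ.continuous)) : p.Homotopic q := by
  obtain ⟨H⟩ := h
  refine ⟨⟨⟨⟨fun z => φ.symm (H z), φ.symm.continuous.comp H.continuous⟩, ?_, ?_⟩, ?_⟩⟩
  · intro t
    show φ.symm (H (0, t)) = p t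
    rw [H.apply_zero]
    exact φ.symm_apply_apply _
  · intro t
    show φ.symm (H (1, t)) = q t
    rw [H.apply_one]
    exact φ.symm_apply_apply _
  · intro t s hs
    show φ.symm (H (t, s)) = p s
    rcases hs with rfl | rfl
    · rw [H.source, p.source]
      exact φ.symm_apply_apply _
    · rw [H.target, p.target]
      exact φ.symm_apply_apply _

theorem trans_mem {x y z : X} {S : Set X} {p : Path x y} {q : Path y z} (hp : ∀ t, p t ∈ S)
    (hq : ∀ t, q t ∈ S) : ∀ t, (p.trans q) t ∈ S := by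
  intro t
  rw [Path.trans_apply]
  split_ifs
  · exact hp _
  · exact hq _

/-- subpaths -/
def sub (α : C(I, X)) (s t : I) : Path (α s) (α t) := (pth α).subpath s t

theorem sub_mem (α : C(I, X)) (s t : I) {S : Set X} (h : ∀ r ∈ uIcc s t, α r ∈ S) :
    ∀ u, sub α s t u ∈ S := by
  intro u
  have h1 : (pth α).subpath s t u ∈ range ((pth α).subpath s t) := ⟨u, rfl⟩
  rw [Path.range_subpath] at h1
  obtain ⟨r, hr, hr'⟩ := h1
  show (pth α).subpath s t u ∈ S
  rw [← hr']
  exact h r hr

/-- classes -/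
abbrev Q {x y : X} (p : Path x y) : Path.Homotopic.Quotient x y := Path.Homotopic.Quotient.mk p

theorem Q_sub (α : C(I, X)) (r s t : I) : (Q (sub α r s)).trans (Q (sub α s t)) = Q (sub α r t) :=
  Path.Homotopic.Quotient.eq.mpr ⟨Path.Homotopy.subpathTransSubpath (pth α) r s t⟩

theorem sub_zero_one (α : C(I, X)) : sub α 0 1 = pth α := Path.subpath_zero_one (pth α)

theorem sub_self (α : C(I, X)) (t : I) : sub α t t = Path.refl (α t) := Path.subpath_self (pth α) t

/-- Close paths are homotopic through small paths. -/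
theorem close_paths (hX : ULC X) : ∃ δ > 0, ∀ (α β : C(I, X)) (κ₀ : Path (α 0) (β 0))
    (τ : Path (α 1) (β 1)), (∀ t, dist (α t) (β t) < δ) → (∀ t, dist (κ₀ t) (α 0) < δ) →
    (∀ t, dist (τ t) (α 1) < δ) →
    (Q (pth α)).trans (Q τ) = (Q κ₀).trans (Q (pth β)) := by
  obtain ⟨δ0, hδ0, h0⟩ := small_hom hX
  obtain ⟨δ1, hδ1, h1⟩ := hX.path (δ0 / 4) (by linarith)
  refine ⟨min δ1 (δ0 / 4), lt_min hδ1 (by linarith), fun α β κ₀ τ hαβ hκ₀ hτ => ?_⟩
  have e1 : min δ1 (δ0 / 4) ≤ δ1 := min_le_left _ _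
  have e2 : min δ1 (δ0 / 4) ≤ δ0 / 4 := min_le_right _ _
  let P : I → Prop := fun t => ∀ c : Path (α t) (β t), (∀ s, dist (c s) (α t) < δ0 / 4) →
    (Q (sub α 0 t)).trans (Q c) = (Q κ₀).trans (Q (sub β 0 t))
  have step : ∀ (a : X) (t t' : I) (c : Path (α t) (β t)) (c' : Path (α t') (β t')),
      (∀ s, dist (c s) a < δ0) → (∀ s, dist (c' s) a < δ0) →
      (∀ r ∈ uIcc t t', dist (α r) a < δ0) → (∀ r ∈ uIcc t t', dist (β r) a < δ0) →
      (Q (sub α t t')).trans (Q c') = (Q c).trans (Q (sub β t t')) := by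
    intro a t t' c c' hc hc' hα hβ
    have h5 : ((sub α t t').trans c').Homotopic (c.trans (sub β t t')) := by
      apply h0 a
      · exact trans_mem (S := {z | dist z a < δ0}) (sub_mem α t t' hα) hc'
      · exact trans_mem (S := {z | dist z a < δ0}) hc (sub_mem β t t' hβ)
    exact Path.Homotopic.Quotient.eq.mpr h5
  have hex : ∀ t, ∃ c : Path (α t) (β t), ∀ s, dist (c s) (α t) < δ0 / 4 := by
    intro t
    obtain ⟨κ, k1, k2, k3⟩ := h1 (α t) (α t) (β t) (mem_ball_self hδ1) (by
      rw [mem_ball, dist_comm]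
      exact lt_of_lt_of_le (hαβ t) e1)
    exact ⟨⟨κ, k1, k2⟩, k3⟩
  have main : ∀ t t' : I, (∀ (c : Path (α t) (β t)) (c' : Path (α t') (β t')),
      (∀ s, dist (c s) (α t) < δ0 / 4) → (∀ s, dist (c' s) (α t') < δ0 / 4) →
      (Q (sub α t t')).trans (Q c') = (Q c).trans (Q (sub β t t'))) → P t → P t' := by
    intro t t' hsq hP c' hc'
    obtain ⟨c, hc⟩ := hex t
    rw [← Q_sub α 0 t t', Path.Homotopic.Quotient.trans_assoc, hsq c c' hc hc',
      ← Path.Homotopic.Quotient.trans_assoc, hP c hc, Path.Homotopic.Quotient.trans_assoc,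
      Q_sub]
  have hloc : IsLocallyConstant P := by
    rw [IsLocallyConstant.iff_eventually_eq]
    intro t
    have ha : ∀ᶠ t' in 𝓝 t, dist (α t') (α t) < δ0 / 8 :=
      (Metric.tendsto_nhds.mp (α.continuous.tendsto t)) _ (by linarith)
    have hb : ∀ᶠ t' in 𝓝 t, dist (β t') (β t) < δ0 / 8 :=
      (Metric.tendsto_nhds.mp (β.continuous.tendsto t)) _ (by linarith)
    obtain ⟨ρ, hρ, hρ'⟩ := Metric.eventually_nhds_iff.mp (ha.and hb)
    have hball : ∀ᶠ t' in 𝓝 t, dist t' t < ρ := Metric.ball_mem_nhds t hρ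
    filter_upwards [hball] with t' ht'
    have hu : ∀ r ∈ uIcc t t', dist (α r) (α t) < δ0 / 8 ∧ dist (β r) (β t) < δ0 / 8 := by
      intro r hr
      apply hρ'
      rw [Subtype.dist_eq, Real.dist_eq] at ht' ⊢
      refine lt_of_le_of_lt ?_ ht'
      rcases le_total t t' with h | h
      · rw [uIcc_of_le h] at hr
        have a1 : (t : ℝ) ≤ r := hr.1
        have a2 : (r : ℝ) ≤ t' := hr.2
        rw [abs_of_nonneg (by linarith), abs_of_nonneg (by linarith)]
        linarith
      · rw [uIcc_of_ge h] at hr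
        have a1 : (t' : ℝ) ≤ r := hr.1
        have a2 : (r : ℝ) ≤ t := hr.2
        rw [abs_of_nonpos (by linarith), abs_of_nonpos (by linarith)]
        linarith
    have hA : ∀ r ∈ uIcc t t', dist (α r) (α t) < δ0 := fun r hr => by
      have := (hu r hr).1
      linarith
    have hB : ∀ r ∈ uIcc t t', dist (β r) (α t) < δ0 := fun r hr => by
      have b1 := (hu r hr).2
      have b2 := hαβ t
      have b3 := dist_triangle_right (β r) (α t) (β t)
      linarith
    have hC : ∀ c : Path (α t) (β t), (∀ s, dist (c s) (α t) < δ0 / 4) →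
        ∀ s, dist (c s) (α t) < δ0 := fun c hc s => by have := hc s; linarith
    have hC' : ∀ c' : Path (α t') (β t'), (∀ s, dist (c' s) (α t') < δ0 / 4) →
        ∀ s, dist (c' s) (α t) < δ0 := fun c' hc' s => by
      have b1 := hc' s
      have b2 := (hu t' right_mem_uIcc).1
      have b3 := dist_triangle (c' s) (α t') (α t)
      linarith
    apply propext
    constructor
    · intro h
      refine main t' t (fun c' c hc' hc => step (α t) t' t c' c (hC' c' hc') (hC c hc) ?_ ?_) h
      · rw [uIcc_comm]; exact hA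
      · rw [uIcc_comm]; exact hB
    · intro h
      exact main t t' (fun c c' hc hc' => step (α t) t t' c c' (hC c hc) (hC' c' hc') hA hB) h
  have hP0 : P 0 := by
    intro c hc
    have h5 : c.Homotopic κ₀ := h0 (α 0) _ _ c κ₀ (fun t => by have := hc t; linarith)
      (fun t => by have := hκ₀ t; linarith)
    have h6 : Q c = Q κ₀ := Path.Homotopic.Quotient.eq.mpr h5
    rw [sub_self, sub_self, h6]
    show (Path.Homotopic.Quotient.refl _).trans _ = (Q κ₀).trans (Path.Homotopic.Quotient.refl _)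
    rw [Path.Homotopic.Quotient.refl_trans, Path.Homotopic.Quotient.trans_refl]
  have hP1 : P 1 := by
    have := hloc.apply_eq_of_isPreconnected isPreconnected_univ (mem_univ (0 : I)) (mem_univ 1)
    rw [← this]
    exact hP0
  have h7 := hP1 τ (fun t => by have := hτ t; linarith)
  rwa [sub_zero_one, sub_zero_one] at h7

/-- Small paths have bounded homotopy length at every scale. -/
theorem small_bdd [CompactSpace X] (hX : ULC X) : ∃ δ > 0, ∀ V : Set (X × X), Nb V →
    ∃ B : ℕ, ∀ (x y : X) (p : Path x y), (∀ s t, dist (p s) (p t) < δ) → HomLen V B p := by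
  classical
  obtain ⟨δ0, hδ0, h0⟩ := small_hom hX
  refine ⟨δ0 / 2, by linarith, fun V hV => ?_⟩
  obtain ⟨ε, hε, hV'⟩ := id hV
  obtain ⟨ρ, hρ, h1⟩ := hX.path (min (ε / 2) (δ0 / 2)) (lt_min (by linarith) (by linarith))
  have e1 : min (ε / 2) (δ0 / 2) ≤ ε / 2 := min_le_left _ _
  have e2 : min (ε / 2) (δ0 / 2) ≤ δ0 / 2 := min_le_right _ _
  obtain ⟨T, -, hT⟩ := (isCompact_univ : IsCompact (univ : Set X)).elim_nhds_subcover
    (fun x => ball x (ρ / 2)) (fun x _ => ball_mem_nhds x (half_pos hρ))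
  refine ⟨2 * T.card, fun x y p hp => ?_⟩
  set R : I → I → Prop := fun s t => dist (p s) (p t) < ρ with hR
  have hRr : ∀ t, R t t := fun t => by
    show dist _ _ < ρ
    rw [dist_self]; exact hρ
  have hex : ∃ n, Chain R n 0 1 := by
    obtain ⟨n, hn, h2⟩ := exists_modulus (p : C(I, X)) hρ
    have hn0 : (0 : ℝ) < n := by exact_mod_cast hn
    have hmem : ∀ i : ℕ, min 1 ((i : ℝ) / n) ∈ I := fun i =>
      ⟨le_min zero_le_one (by positivity), min_le_left _ _⟩
    refine ⟨n, fun i => ⟨min 1 ((i : ℝ) / n), hmem i⟩, ?_, ?_, ?_⟩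
    · apply Subtype.ext; simp
    · apply Subtype.ext
      show min 1 ((n : ℝ) / n) = 1
      rw [div_self hn0.ne', min_self]
    · intro i hi
      apply h2
      show |min 1 ((i : ℝ) / n) - min 1 (((i + 1 : ℕ) : ℝ) / n)| ≤ 1 / n
      have e : ((i + 1 : ℕ) : ℝ) / n = (i : ℝ) / n + 1 / n := by push_cast; ring
      have h1 : 0 < 1 / (n : ℝ) := by positivity
      rw [e, abs_le]
      rcases le_total 1 ((i : ℝ) / n) with h3 | h3 <;>
      rcases le_total 1 ((i : ℝ) / n + 1 / n) with h4 | h4 <;>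
      simp only [min_def] <;> split_ifs <;> constructor <;> linarith
  have hmin : Nat.find hex ≤ 2 * T.card := by
    by_contra hcon
    push Not at hcon
    obtain ⟨τ, hτ0, hτ1, hτ⟩ := Nat.find_spec hex
    set n := Nat.find hex with hn
    have hcen : ∀ s : I, ∃ z ∈ T, dist (p s) z < ρ / 2 := by
      intro s
      have h5 := hT (mem_univ (p s))
      rw [mem_iUnion₂] at h5
      obtain ⟨z, hz, hz'⟩ := h5
      exact ⟨z, hz, hz'⟩
    choose z hzT hz using hcen
    have hpig : ∃ i ∈ Finset.range (T.card + 1), ∃ j ∈ Finset.range (T.card + 1), i ≠ j ∧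
        z (τ (2 * i)) = z (τ (2 * j)) := by
      apply Finset.exists_ne_map_eq_of_card_lt_of_maps_to (t := T)
      · rw [Finset.card_range]; omega
      · intro i _
        exact hzT _
    obtain ⟨i, hi, j, hj, hij, he⟩ := hpig
    rw [Finset.mem_range] at hi hj
    have main : ∀ i j : ℕ, i < T.card + 1 → j < T.card + 1 → i < j →
        z (τ (2 * i)) = z (τ (2 * j)) → False := by
      intro i j hi hj hij he
      have hd : dist (p (τ (2 * i))) (p (τ (2 * j))) < ρ := by
        have a1 := hz (τ (2 * i))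
        have a2 := hz (τ (2 * j))
        rw [← he] at a2
        have a3 := dist_triangle_right (p (τ (2 * i))) (p (τ (2 * j))) (z (τ (2 * i)))
        linarith
      have c1 : Chain R (2 * i) 0 (τ (2 * i)) := ⟨τ, hτ0, rfl, fun r hr => hτ r (by omega)⟩
      have c2 : Chain R 1 (τ (2 * i)) (τ (2 * j)) := Chain.single hd
      have c3 : Chain R (n - 2 * j) (τ (2 * j)) 1 := by
        refine ⟨fun r => τ (2 * j + r), rfl, ?_, fun r hr => ?_⟩
        · show τ (2 * j + (n - 2 * j)) = 1
          rw [Nat.add_sub_cancel' (by omega), hτ1]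
        · exact hτ (2 * j + r) (by omega)
      have c4 := (c1.trans c2).trans c3
      have h6 := Nat.find_min' hex c4
      omega
    rcases lt_or_gt_of_ne hij with h5 | h5
    · exact main i j hi hj h5 he
    · exact main j i hj hi h5 he.symm
  obtain ⟨τ, hτ0, hτ1, hτ⟩ := Nat.find_spec hex
  have key : ∀ i ≤ Nat.find hex, ∃ q : Path (p 0) (p (τ i)), HomLen V i q ∧
      ∀ t, dist (q t) (p 0) < δ0 := by
    intro i
    induction i with
    | zero =>
      intro _
      rw [hτ0]
      exact ⟨Path.refl _, .refl _, fun t => by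
        show dist (p 0) (p 0) < δ0
        rw [dist_self]; exact hδ0⟩
    | succ i ih =>
      intro hi
      obtain ⟨q, hq1, hq2⟩ := ih (by omega)
      obtain ⟨κ, k1, k2, k3⟩ := h1 (p (τ i)) (p (τ i)) (p (τ (i + 1))) (mem_ball_self hρ) (by
        rw [mem_ball, dist_comm]
        exact hτ i (by omega))
      refine ⟨q.trans ⟨κ, k1, k2⟩, hq1.add (HomLen.single fun s t => ?_), ?_⟩
      · apply hV'
        have a1 : dist (κ s) (p (τ i)) < _ := k3 s
        have a2 : dist (κ t) (p (τ i)) < _ := k3 t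
        have a3 := dist_triangle_right (κ s) (κ t) (p (τ i))
        show dist (κ s) (κ t) < ε
        linarith
      · refine trans_mem (S := {z | dist z (p 0) < δ0}) hq2 fun t => ?_
        show dist (κ t) (p 0) < δ0
        have a1 : dist (κ t) (p (τ i)) < _ := k3 t
        have a2 := hp (τ i) 0
        have a3 := dist_triangle (κ t) (p (τ i)) (p 0)
        linarith
  obtain ⟨q, hq1, hq2⟩ := key _ le_rfl
  have hx : x = p 0 := p.source.symm
  have hy : y = p (τ (Nat.find hex)) := by rw [hτ1]; exact p.target.symm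
  have h9 : HomLen V (Nat.find hex) (q.cast hx hy) := by
    have e : ∀ {x' y' : X} (hx : x' = p 0) (hy : y' = p (τ (Nat.find hex))),
        HomLen V (Nat.find hex) (q.cast hx hy) := by
      intro x' y' hx hy
      subst hx
      subst hy
      exact hq1
    exact e hx hy
  refine (HomLen.homotopic _ _ ?_ h9).mono hV.refl hmin
  apply h0 (p 0)
  · intro t
    exact hq2 t
  · intro t
    have := hp t 0
    linarith

/-- Continuous maps are coarsely Lipschitz for the homotopy length. -/
theorem len_map [CompactSpace X] (hX : ULC X) : ∃ δ > 0, ∀ V : Set (X × X), Nb V →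
    (∀ x y : X, (x, y) ∈ V → dist x y < δ) → ∀ φ : C(X, X), ∃ B : ℕ, ∀ (x y : X) (p : Path x y),
      len V (p.map φ.continuous) ≤ B * len V p := by
  obtain ⟨δ, hδ, h1⟩ := small_bdd hX
  refine ⟨δ, hδ, fun V hV hVδ φ => ?_⟩
  obtain ⟨ε, hε, hV'⟩ := id hV
  have hW : Nb {z : X × X | (φ z.1, φ z.2) ∈ V} := by
    have hu := CompactSpace.uniformContinuous_of_continuous φ.continuous
    rw [Metric.uniformContinuous_iff] at hu
    obtain ⟨η, hη, h2⟩ := hu ε hε
    exact ⟨η, hη, fun x y hxy => hV' _ _ (h2 hxy)⟩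
  obtain ⟨B, hB⟩ := h1 _ hW
  refine ⟨B, fun x y p => len_le ?_⟩
  refine HomLen.map φ ?_ (homLen_len hV p)
  intro x y p hp
  have h3 := hB x y p (fun s t => hVδ _ _ (hp s t))
  have h4 := HomLen.map (W := V) (B := 1) φ (fun x y p hp => HomLen.single hp) h3
  rwa [one_mul] at h4

end Pool.Agent.T6.H46.DL
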