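import Mathlib

set_option autoImplicit false

open Filter Topology Set Metric unitInterval

namespace Pool.Agent.T6.H46.DL

/-- homotopy length -/
inductive HomLen {M : Type*} [TopologicalSpace M] (V : Set (M × M)) :
    ℕ → ∀ {x y : M}, Path x y → Prop
  | refl (x : M) : HomLen V 0 (Path.refl x)
  | trans {n : ℕ} {x y z : M} (p : Path x y) (q : Path y z) :
      (∀ s t, (p s, p t) ∈ V) → HomLen V n q → HomLen V (n + 1) (p.trans q)
  | homotopic {n : ℕ} {x y : M} (p q : Path x y) :
      p.Homotopic q → HomLen V n p → HomLen V n q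

variable {M : Type*} [TopologicalSpace M] {V : Set (M × M)}

/-- the path of a map -/
def pth (c : C(I, M)) : Path (c 0) (c 1) := ⟨c, rfl, rfl⟩

theorem HomLen.single {x y : M} {p : Path x y} (h : ∀ s t, (p s, p t) ∈ V) : HomLen V 1 p :=
  .homotopic _ _ ⟨Path.Homotopy.transRefl p⟩ (.trans p (Path.refl y) h (.refl y))

theorem HomLen.add {n m : ℕ} {x y z : M} {p : Path x y} {q : Path y z} (hp : HomLen V n p)
    (hq : HomLen V m q) : HomLen V (n + m) (p.trans q) := by
  induction hp with
  | refl x => 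
    rw [zero_add]
    exact .homotopic _ _ (Path.Homotopic.symm ⟨Path.Homotopy.reflTrans q⟩) hq
  | @trans k x y' z' p p' h1 h2 ih =>
    have := HomLen.trans p _ h1 (ih hq)
    rw [show k + 1 + m = k + m + 1 by ring]
    exact .homotopic _ _ (Path.Homotopic.symm ⟨Path.Homotopy.transAssoc p p' q⟩) this
  | homotopic p p' h1 h2 ih =>
    exact .homotopic _ _ (Path.Homotopic.hcomp h1 (Path.Homotopic.refl q)) (ih hq)

theorem HomLen.symm {n : ℕ} {x y : M} {p : Path x y} (hp : HomLen V n p) :
    HomLen V n p.symm := by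
  induction hp with
  | refl x => rw [Path.refl_symm]; exact .refl x
  | trans p q h1 h2 ih =>
    rw [Path.trans_symm]
    exact ih.add (HomLen.single (p := p.symm) (fun s t => h1 _ _))
  | homotopic p q h1 h2 ih => exact .homotopic _ _ h1.symm₂ ih

theorem HomLen.mono {n m : ℕ} (hV : ∀ x, (x, x) ∈ V) {x y : M} {p : Path x y}
    (hp : HomLen V n p) (hnm : n ≤ m) : HomLen V m p := by
  induction m, hnm using Nat.le_induction with
  | base => exact hp
  | succ m _ ih =>
    refine .homotopic _ _ ⟨Path.Homotopy.reflTrans p⟩ (.trans (Path.refl x) p ?_ ih)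
    intro s t
    exact hV x

theorem HomLen.map {N : Type*} [TopologicalSpace N] {W : Set (N × N)} {B : ℕ} (φ : C(M, N))
    (hφ : ∀ (x y : M) (p : Path x y), (∀ s t, (p s, p t) ∈ V) →
      HomLen W B (p.map φ.continuous)) {n : ℕ} {x y : M} {p : Path x y}
    (hp : HomLen V n p) : HomLen W (B * n) (p.map φ.continuous) := by
  induction hp with
  | refl x => exact .refl _
  | trans p q h1 h2 ih =>
    rw [Path.map_trans, mul_add, mul_one, add_comm]
    exact (hφ _ _ p h1).add ih
  | homotopic p q h1 h2 ih => exact .homotopic _ _ (h1.map φ) ih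

/-- A path that moves little on the intervals of length `1/n` has length at most `n`. -/
theorem HomLen.of_modulus {x y : M} (p : Path x y) {n : ℕ} (hn : 1 ≤ n)
    (h : ∀ r s : I, |(r : ℝ) - s| ≤ 1 / n → (p r, p s) ∈ V) : HomLen V n p := by
  have hn0 : (0 : ℝ) < n := by exact_mod_cast hn
  let t : ℕ → I := fun i => Set.projIcc 0 1 zero_le_one ((i : ℝ) / n)
  have ht : ∀ i, ((t i : I) : ℝ) = max 0 (min 1 ((i : ℝ) / n)) := fun i => by
    rw [Set.coe_projIcc]
  have ht0 : t 0 = 0 := by
    apply Subtype.ext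
    rw [ht]; simp
  have htn : t n = 1 := by
    apply Subtype.ext
    rw [ht, div_self hn0.ne']; simp
  have hstep : ∀ i, ((t (i + 1) : I) : ℝ) - t i ≤ 1 / n ∧ (t i : ℝ) ≤ t (i + 1) := by
    intro i
    rw [ht, ht]
    have e : ((i + 1 : ℕ) : ℝ) / n = (i : ℝ) / n + 1 / n := by push_cast; ring
    have h1 : 0 < 1 / (n : ℝ) := by positivity
    rw [e]
    constructor
    · rcases le_total 0 (min 1 ((i : ℝ) / n)) with h2 | h2 <;>
      rcases le_total 1 ((i : ℝ) / n) with h3 | h3 <;>
      rcases le_total 1 ((i : ℝ) / n + 1 / n) with h4 | h4 <;>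
      simp only [max_def, min_def] <;> split_ifs <;> linarith
    · exact max_le_max le_rfl (min_le_min le_rfl (by linarith))
  have key : ∀ i : ℕ, HomLen V i (p.subpath 0 (t i)) := by
    intro i
    induction i with
    | zero =>
      rw [ht0, Path.subpath_self]
      exact .refl _
    | succ i ih =>
      refine .homotopic _ _ ⟨Path.Homotopy.subpathTransSubpath p 0 (t i) (t (i + 1))⟩ ?_
      refine ih.add (HomLen.single ?_)
      have hr : ∀ s, ∃ r : I, (p.subpath (t i) (t (i + 1))) s = p r ∧ (t i : ℝ) ≤ r ∧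
          (r : ℝ) ≤ t (i + 1) := by
        intro s
        have h1 : (p.subpath (t i) (t (i + 1))) s ∈ range (p.subpath (t i) (t (i + 1))) :=
          ⟨s, rfl⟩
        rw [Path.range_subpath_of_le _ _ _ (Subtype.coe_le_coe.mp (hstep i).2)] at h1
        obtain ⟨r, hr, hr'⟩ := h1
        exact ⟨r, hr'.symm, hr.1, hr.2⟩
      intro s s'
      obtain ⟨r, h1, h2, h3⟩ := hr s
      obtain ⟨r', h1', h2', h3'⟩ := hr s'
      rw [h1, h1']
      apply h
      have := (hstep i).1
      rw [abs_le]
      constructor <;> linarith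
  have h1 := key n
  rw [htn, Path.subpath_zero_one] at h1
  have e : ∀ {x' y' : M} (hx : x' = x) (hy : y' = y), HomLen V n (p.cast hx hy) →
      HomLen V n p := by
    intro x' y' hx hy h2
    subst hx
    subst hy
    exact h2
  exact e _ _ h1

/-- the least homotopy length -/
noncomputable def len (V : Set (M × M)) {x y : M} (p : Path x y) : ℕ := sInf {n | HomLen V n p}

theorem len_le {n : ℕ} {x y : M} {p : Path x y} (h : HomLen V n p) : len V p ≤ n := Nat.sInf_le h

theorem len_homotopic {x y : M} {p q : Path x y} (h : p.Homotopic q) : len V p = len V q := by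
  unfold len
  congr 1
  ext n
  exact ⟨fun h1 => .homotopic _ _ h h1, fun h1 => .homotopic _ _ h.symm h1⟩

theorem len_pth {x y : M} (p : Path x y) : len V (pth (p : C(I, M))) = len V p := by
  have e : ∀ {x' y' : M} (hx : x' = x) (hy : y' = y), len V (p.cast hx hy) = len V p := by
    intro x' y' hx hy
    subst hx
    subst hy
    rfl
  exact e (p.source) (p.target)

section metric

variable {X : Type*} [MetricSpace X] {V : Set (X × X)}

theorem exists_modulus (c : C(I, X)) {ε : ℝ} (hε : 0 < ε) : ∃ n : ℕ, 1 ≤ n ∧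
    ∀ r s : I, |(r : ℝ) - s| ≤ 1 / n → dist (c r) (c s) < ε := by
  have hu := CompactSpace.uniformContinuous_of_continuous c.continuous
  rw [Metric.uniformContinuous_iff] at hu
  obtain ⟨δ, hδ, h1⟩ := hu ε hε
  obtain ⟨N, hN⟩ := exists_nat_gt (1 / δ)
  have hN0 : 0 < (N : ℝ) := lt_trans (by positivity) hN
  refine ⟨N, by exact_mod_cast hN0, fun r s hrs => h1 ?_⟩
  rw [Subtype.dist_eq, Real.dist_eq]
  refine lt_of_le_of_lt hrs ?_
  rw [one_div_lt hN0 hδ]
  exact hN

/-- the neighbourhoods of the diagonal -/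
def Nb (V : Set (X × X)) : Prop := ∃ ε > 0, ∀ x y : X, dist x y < ε → (x, y) ∈ V

theorem Nb.refl (h : Nb V) (x : X) : (x, x) ∈ V := by
  obtain ⟨ε, hε, h1⟩ := h
  exact h1 _ _ (by rw [dist_self]; exact hε)

theorem exists_homLen (hV : Nb V) {x y : X} (p : Path x y) : ∃ n, HomLen V n p := by
  obtain ⟨ε, hε, h1⟩ := hV
  obtain ⟨n, hn, h2⟩ := exists_modulus (p : C(I, X)) hε
  exact ⟨n, HomLen.of_modulus p hn fun r s hrs => h1 _ _ (h2 r s hrs)⟩

theorem homLen_len (hV : Nb V) {x y : X} (p : Path x y) : HomLen V (len V p) p :=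
  Nat.sInf_mem (s := {n | HomLen V n p}) (exists_homLen hV p)

theorem homLen_iff (hV : Nb V) {n : ℕ} {x y : X} (p : Path x y) : HomLen V n p ↔ len V p ≤ n :=
  ⟨len_le, fun h => (homLen_len hV p).mono hV.refl h⟩

theorem len_trans (hV : Nb V) {x y z : X} (p : Path x y) (q : Path y z) :
    len V (p.trans q) ≤ len V p + len V q := len_le ((homLen_len hV p).add (homLen_len hV q))

theorem len_symm (hV : Nb V) {x y : X} (p : Path x y) : len V p.symm = len V p := by
  apply le_antisymm
  · exact len_le (homLen_len hV p).symm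
  · have := len_le (homLen_len hV p.symm).symm
    rwa [Path.symm_symm] at this

theorem len_small {x y : X} {p : Path x y} (h : ∀ s t, (p s, p t) ∈ V) : len V p ≤ 1 :=
  len_le (HomLen.single h)

end metric

end Pool.Agent.T6.H46.DL
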