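import Pool.Agent.T6.H46.DL.Growth

set_option autoImplicit false

open Filter Topology Set Metric unitInterval

namespace Pool.Agent.T6.H46.DL

open Pool.Agent.H789R2.AN Pool.Agent.H789R2.GP Pool.Agent.H721R2 Pool.Agent.T6.H66.PS

variable {X : Type*} [MetricSpace X]

/-- Any two points are joined by a path of bounded homotopy length. -/
theorem diam_bdd [CompactSpace X] [PathConnectedSpace X] (hX : ULC X) {V : Set (X × X)}
    (hV : Nb V) : ∃ D : ℕ, ∀ x y : X, ∃ p : Path x y, len V p ≤ D := by
  classical
  obtain ⟨ε, hε, hV'⟩ := id hV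
  obtain ⟨ρ, hρ, hp⟩ := hX.path (ε / 2) (half_pos hε)
  obtain ⟨T, -, hT⟩ := (isCompact_univ : IsCompact (univ : Set X)).elim_nhds_subcover
    (fun x => ball x ρ) (fun x _ => ball_mem_nhds x hρ)
  have hsmall : ∀ z : X, ∃ e ∈ T, ∃ w : Path e z, len V w ≤ 1 := by
    intro z
    have h5 := hT (mem_univ z)
    rw [mem_iUnion₂] at h5
    obtain ⟨e, he, he'⟩ := h5
    obtain ⟨κ, a1, a2, a3⟩ := hp e e z (mem_ball_self hρ) he'
    refine ⟨e, he, ⟨κ, a1, a2⟩, len_small fun s t => hV' _ _ ?_⟩
    have b1 : dist (κ s) e < ε / 2 := a3 s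
    have b2 : dist (κ t) e < ε / 2 := a3 t
    have b3 := dist_triangle_right (κ s) (κ t) e
    show dist (κ s) (κ t) < ε
    linarith
  let P : ∀ a b : X, Path a b := fun a b => (PathConnectedSpace.joined a b).somePath
  refine ⟨1 + (T ×ˢ T).sup (fun ab => len V (P ab.1 ab.2)) + 1, fun x y => ?_⟩
  obtain ⟨a, ha, w, hw⟩ := hsmall x
  obtain ⟨b, hb, w', hw'⟩ := hsmall y
  refine ⟨(w.symm.trans (P a b)).trans w', ?_⟩
  have h1 := len_trans hV (w.symm.trans (P a b)) w'
  have h2 := len_trans hV w.symm (P a b)
  rw [len_symm hV] at h2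
  have h3 : len V (P a b) ≤ (T ×ˢ T).sup (fun ab => len V (P ab.1 ab.2)) :=
    Finset.le_sup (f := fun ab : X × X => len V (P ab.1 ab.2)) (Finset.mk_mem_product ha hb)
  omega

/-- hyperbolicity for loops -/
def BFL (F : X ≃ₜ X) (V : Set (X × X)) (N R : ℕ) : Prop :=
  ∀ c : C(I, X), c 0 = c 1 → R ≤ hl V c →
    2 * hl V c ≤ max (hl V (push F N c)) (hl V (push F.symm N c))

/-- From loops to paths. -/
theorem bf_of_loops {F : X ≃ₜ X} {V : Set (X × X)} (hV : Nb V) {N R B D : ℕ}
    (hB : ∀ (x y : X) (p : Path x y), len V (p.map F.continuous) ≤ B * len V p)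
    (hB' : ∀ (x y : X) (p : Path x y), len V (p.map F.symm.continuous) ≤ B * len V p)
    (hD : ∀ x y : X, ∃ p : Path x y, len V p ≤ D) (h : BFL F V N R) :
    ∃ R', BF F V (2 * N) R' := by
  set C := B ^ N * D + 2 * R + 2 * D with hC
  have step : ∀ c : C(I, X), 2 * hl V c ≤
      max (hl V (push F N c)) (hl V (push F.symm N c)) + C := by
    intro c
    obtain ⟨s, hs⟩ := hD (c 1) (c 0)
    let p : Path (c 0) (c 0) := (pth c).trans s
    have up : ∀ (G : X ≃ₜ X), (∀ (x y : X) (p : Path x y),
        len V (p.map G.continuous) ≤ B * len V p) →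
        hl V (push G N (p : C(I, X))) ≤ hl V (push G N c) + B ^ N * D := by
      intro G hG
      set ψ : X ≃ₜ X := iterHomeo G N with hψ
      have e1 : hl V (push G N (p : C(I, X))) = len V (p.map ψ.continuous) :=
        hl_coe (V := V) (p.map ψ.continuous)
      have e2 : hl V (push G N c) = len V ((pth c).map ψ.continuous) :=
        hl_coe (V := V) ((pth c).map ψ.continuous)
      have e3 : hl V (push G N (s : C(I, X))) = len V (s.map ψ.continuous) :=
        hl_coe (V := V) (s.map ψ.continuous)
      have h1 := push_bound hG N (s : C(I, X))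
      rw [e3, hl_coe] at h1
      have h2 : len V (p.map ψ.continuous) ≤
          len V ((pth c).map ψ.continuous) + len V (s.map ψ.continuous) := by
        show len V (((pth c).trans s).map ψ.continuous) ≤ _
        rw [Path.map_trans]
        exact len_trans hV _ _
      have h3 : B ^ N * len V s ≤ B ^ N * D := Nat.mul_le_mul_left _ hs
      omega
    have u1 := up F hB
    have u2 := up F.symm hB'
    have low : hl V c ≤ hl V (p : C(I, X)) + D := by
      rw [hl_coe]
      have h1 : (p.trans s.symm).Homotopic (pth c) := by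
        apply Path.Homotopic.Quotient.eq.mp
        show ((Q (pth c)).trans (Q s)).trans (Q s).symm = Q (pth c)
        rw [Path.Homotopic.Quotient.trans_assoc, Path.Homotopic.Quotient.trans_symm,
          Path.Homotopic.Quotient.trans_refl]
      have h2 : len V (pth c) ≤ len V p + len V s.symm := by
        rw [← len_homotopic h1]
        exact len_trans hV _ _
      rw [len_symm hV] at h2
      show len V (pth c) ≤ _
      omega
    have hcl : (p : C(I, X)) 0 = (p : C(I, X)) 1 := p.source.trans p.target.symm
    have m1 : hl V (push F N c) ≤ max (hl V (push F N c)) (hl V (push F.symm N c)) :=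
      le_max_left _ _
    have m2 : hl V (push F.symm N c) ≤ max (hl V (push F N c)) (hl V (push F.symm N c)) :=
      le_max_right _ _
    by_cases hR : R ≤ hl V (p : C(I, X))
    · have h3 := h _ hcl hR
      rcases le_max_iff.mp h3 with h4 | h4 <;> omega
    · omega
  refine ⟨2 * C + 1, fun c hc => ?_⟩
  have dich : ∀ (G : X ≃ₜ X), (∀ c : C(I, X), 2 * hl V c ≤
      max (hl V (push G N c)) (hl V (push G.symm N c)) + C) →
      hl V (push G.symm N c) ≤ hl V (push G N c) → 2 * hl V c ≤ hl V (push G (2 * N) c) := by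
    intro G hG hle
    have h1 := hG c
    rw [max_eq_left hle] at h1
    have h2 := hG (push G N c)
    rw [push_push, push_symm_push G N N le_rfl, Nat.sub_self, push_zero,
      show N + N = 2 * N by ring] at h2
    rcases le_total (hl V (push G (2 * N) c)) (hl V c) with h3 | h3
    · rw [max_eq_right h3] at h2
      omega
    · rw [max_eq_left h3] at h2
      omega
  rcases le_total (hl V (push F.symm N c)) (hl V (push F N c)) with h1 | h1
  · exact (dich F step h1).trans (le_max_left _ _)
  · refine (dich F.symm (fun c => ?_) h1).trans (le_max_right _ _)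
    have := step c
    rw [max_comm] at this
    exact this

end Pool.Agent.T6.H46.DL
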