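import Pool.Agent.T6.H46.DL.Man

set_option autoImplicit false
set_option linter.unusedSectionVars false

open Filter Topology Set Metric
open scoped Manifold ContDiff

namespace Pool.Agent.T6.H46.DL

open Pool.Agent.H789R2.AN Pool.Agent.H789R2.GP Pool.Agent.H721R2 Pool.Agent.T6.H66.PS

section manifold

variable {E : Type*} [NormedAddCommGroup E] [NormedSpace ℝ E] [FiniteDimensional ℝ E]
  {M : Type*} [TopologicalSpace M] [T2Space M] [CompactSpace M] [ConnectedSpace M]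
  [ChartedSpace E M] [IsManifold 𝓘(ℝ, E) ∞ M]

theorem man_main (f : Diffeomorph 𝓘(ℝ, E) 𝓘(ℝ, E) M M 1)
    (Es Eu : ∀ x : M, Submodule ℝ (TangentSpace 𝓘(ℝ, E) x)) (hA : IsAnosov f Es Eu)
    (hR : ∀ 𝒲 ∈ 𝓝ˢ (diagonal M), ∃ V ∈ 𝓝ˢ (diagonal M), V ⊆ 𝒲 ∧
      ((Dominated f.toHomeomorph V ∧
          (ProperlyEmbedded f.toHomeomorph V ∨ ProperlyEmbedded f.toHomeomorph.symm V)) ∨
        (LoopHyp f.toHomeomorph V ∧
          (Unbdd f.toHomeomorph V ∨ Unbdd f.toHomeomorph.symm V ∨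
            (NielsenUnique f.toHomeomorph ∧ (OneCommon f.toHomeomorph ∨
              Dense {x | ∃ m, 1 ≤ m ∧ f^[m] x = x})))))) :
    ∃ π : E → M, IsCoveringMap π ∧ Function.Surjective π := by
  obtain ⟨m, e, he, hemb, hinj⟩ := exists_embedding_euclidean_of_compact (I := 𝓘(ℝ, E)) (M := M)
  let _ : MetricSpace M := hemb.isEmbedding.comapMetricSpace e
  have hiso : ∀ x y : M, dist x y = ‖e x - e y‖ := fun x y => dist_eq_norm (e x) (e y)
  have he1 : ContMDiff 𝓘(ℝ, E) (𝓡 m) 1 e := he.of_le (by simp)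
  obtain ⟨n, S, hn, hSg⟩ := exists_sys_pos hiso he1 hinj f Es Eu hA
  set F : M ≃ₜ M := f.toHomeomorph with hF
  have hg : ∀ k x, S.g^[k] x = F^[n * k] x := fun k x => by
    rw [hSg, Function.iterate_mul]; rfl
  have hg' : ∀ k x, S.g.symm^[k] x = F.symm^[n * k] x := fun k x => by
    rw [hSg, Function.iterate_mul]; rfl
  exact sys_main S F n hn hg hg' hR

end manifold

end Pool.Agent.T6.H46.DL
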