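import Pool.Agent.T6.H46.DL.Niel
import Pool.Agent.T6.H46.DL.Loop
import Pool.Agent.T6.H66.PS.Man

set_option autoImplicit false
set_option linter.unusedSectionVars false

open Filter Topology Set Metric unitInterval
open scoped Manifold ContDiff

namespace Pool.Agent.T6.H46.DL

open Pool.Agent.H789R2.AN Pool.Agent.H789R2.GP Pool.Agent.H721R2 Pool.Agent.T6.H66.PS

section top

variable {M : Type*} [TopologicalSpace M]

/-- the iterates of the path shrink -/
def Shrinks (φ : M ≃ₜ M) (c : C(I, M)) : Prop :=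
  ∀ 𝒰 ∈ 𝓝ˢ (diagonal M), ∀ᶠ k in atTop, ∀ s t, (φ^[k] (c s), φ^[k] (c t)) ∈ 𝒰

/-- dominated growth of the homotopy lengths -/
def Dominated (f : M ≃ₜ M) (V : Set (M × M)) : Prop :=
  ∃ (N : ℕ) (ν C : ℝ), 0 < ν ∧
    (∀ c, Shrinks f c → (hl V (push f N c) : ℝ) ≤ ν * hl V c + C) ∧
    ∀ c, Shrinks f.symm c → 2 * ν * hl V c ≤ hl V (push f N c) + C

/-- stable paths of bounded homotopy length are uniformly contracted -/
def ProperlyEmbedded (f : M ≃ₜ M) (V : Set (M × M)) : Prop :=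
  ∀ K : ℕ, ∀ 𝒰 ∈ 𝓝ˢ (diagonal M), ∃ m : ℕ, ∀ c, Shrinks f c → hl V c ≤ K →
    ∀ k ≥ m, (f^[k] (c 0), f^[k] (c 1)) ∈ 𝒰

/-- hyperbolic on the fundamental groupoid at large scale -/
def LargeHyp (f : M ≃ₜ M) (V : Set (M × M)) : Prop :=
  ∃ N R : ℕ, 1 ≤ N ∧ ∀ c : C(I, M), R ≤ hl V c →
    2 * hl V c ≤ max (hl V (push f N c)) (hl V (push f.symm N c))

/-- hyperbolic on the fundamental group -/
def LoopHyp (f : M ≃ₜ M) (V : Set (M × M)) : Prop :=
  ∃ N R : ℕ, 1 ≤ N ∧ ∀ c : C(I, M), c 0 = c 1 → R ≤ hl V c →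
    2 * hl V c ≤ max (hl V (push f N c)) (hl V (push f.symm N c))

/-- stable paths with distinct end points get long -/
def Unbdd (f : M ≃ₜ M) (V : Set (M × M)) : Prop :=
  ∀ c, Shrinks f c → c 0 ≠ c 1 → ∀ K : ℕ, ∃ k : ℕ, K < hl V (push f.symm k c)

/-- in the universal cover a stable and an unstable leaf have at most one common point -/
def OneCommon (f : M ≃ₜ M) : Prop :=
  ∀ c d : C(I, M), Shrinks f c → Shrinks f.symm d → c.HomotopicRel d {0, 1} → c 0 = c 1

end top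

section metric

variable {X : Type*} [MetricSpace X] [CompactSpace X]

theorem shrinks_iff (φ : X ≃ₜ X) (c : C(I, X)) : Shrinks φ c ↔ ShC φ c := by
  constructor
  · intro h ε hε
    have hV : {p : X × X | dist p.1 p.2 < ε} ∈ 𝓝ˢ (diagonal X) := by
      rw [nhdsSet_diagonal_eq_uniformity]
      exact Metric.dist_mem_uniformity hε
    obtain ⟨m, hm⟩ := eventually_atTop.mp (h _ hV)
    exact ⟨m, fun k hk s t => hm k hk s t⟩
  · intro h 𝒰 h𝒰
    rw [nhdsSet_diagonal_eq_uniformity] at h𝒰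
    obtain ⟨ε, hε, h1⟩ := Metric.mem_uniformity_dist.mp h𝒰
    obtain ⟨m, hm⟩ := h ε hε
    exact eventually_atTop.mpr ⟨m, fun k hk s t => h1 (hm k hk s t)⟩

theorem nb_of_mem {V : Set (X × X)} (h : V ∈ 𝓝ˢ (diagonal X)) : Nb V := by
  rw [nhdsSet_diagonal_eq_uniformity] at h
  obtain ⟨ε, hε, h1⟩ := Metric.mem_uniformity_dist.mp h
  exact ⟨ε, hε, fun x y hxy => h1 hxy⟩

theorem CT_of_proper {F : X ≃ₜ X} {V : Set (X × X)}
    (hq : ∀ K : ℕ, ∃ K2 : ℕ, ∀ (x y z : X) (γ : Path x z) (ξ : Path y z), Shr F γ →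
      Shr F.symm ξ → len V (γ.trans ξ.symm) ≤ K → len V γ ≤ K2)
    (hP : ProperlyEmbedded F V) : CT F V := by
  intro K η hη
  obtain ⟨K2, hK2⟩ := hq K
  have hV : {p : X × X | dist p.1 p.2 < η} ∈ 𝓝ˢ (diagonal X) := by
    rw [nhdsSet_diagonal_eq_uniformity]
    exact Metric.dist_mem_uniformity hη
  obtain ⟨m, hm⟩ := hP K2 _ hV
  refine ⟨m, fun x y z γ ξ hγ hξ hK k hk => ?_⟩
  have h2 : dist (F^[k] ((γ : C(I, X)) 0)) (F^[k] ((γ : C(I, X)) 1)) < η :=
    hm (γ : C(I, X)) ((shrinks_iff F _).mpr fun ε hε => hγ ε hε)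
      (by rw [hl_coe]; exact hK2 x y z γ ξ hγ hξ hK) k hk
  have e0 : (γ : C(I, X)) 0 = x := γ.source
  have e1 : (γ : C(I, X)) 1 = z := γ.target
  rw [e0, e1] at h2
  exact h2.le

/-- Quadrilaterals bounded on one side are bounded (dominated version). -/
theorem quad_dom {F : X ≃ₜ X} {V : Set (X × X)} (hV : Nb V) {N B : ℕ} {ν C : ℝ} (hν : 0 < ν)
    (h1 : ∀ c, ShC F c → (hl V (push F N c) : ℝ) ≤ ν * hl V c + C)
    (h2 : ∀ c, ShC F.symm c → 2 * ν * hl V c ≤ hl V (push F N c) + C)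
    (hB : ∀ (x y : X) (p : Path x y), len V (p.map F.continuous) ≤ B * len V p)
    {K : ℕ} {x y z : X} (γ : Path x z) (ξ : Path y z) (hγ : Shr F γ) (hξ : Shr F.symm ξ)
    (hK : len V (γ.trans ξ.symm) ≤ K) :
    (len V γ : ℝ) ≤ 2 * K + ((B : ℝ) ^ N * K + 2 * C) / ν := by
  set ψ : X ≃ₜ X := iterHomeo F N with hψ
  have e1 : (len V (γ.map ψ.continuous) : ℝ) ≤ ν * len V γ + C := by
    have h := h1 (γ : C(I, X)) (fun ε hε => hγ ε hε)
    rw [hl_coe] at h
    have e : hl V (push F N (γ : C(I, X))) = len V (γ.map ψ.continuous) :=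
      hl_coe (V := V) (γ.map ψ.continuous)
    rwa [e] at h
  have e2 : 2 * ν * (len V ξ : ℝ) ≤ len V (ξ.map ψ.continuous) + C := by
    have h := h2 (ξ : C(I, X)) (fun ε hε => hξ ε hε)
    rw [hl_coe] at h
    have e : hl V (push F N (ξ : C(I, X))) = len V (ξ.map ψ.continuous) :=
      hl_coe (V := V) (ξ.map ψ.continuous)
    rwa [e] at h
  have h3 : len V ((γ.trans ξ.symm).map ψ.continuous) ≤ B ^ N * K := by
    have h := push_bound hB N ((γ.trans ξ.symm : Path x y) : C(I, X))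
    rw [hl_coe] at h
    have e : hl V (push F N ((γ.trans ξ.symm : Path x y) : C(I, X))) =
        len V ((γ.trans ξ.symm).map ψ.continuous) :=
      hl_coe (V := V) ((γ.trans ξ.symm).map ψ.continuous)
    rw [e] at h
    exact h.trans (Nat.mul_le_mul_left _ hK)
  have alg : ∀ {a b d : X} (p : Path a d) (q : Path b d),
      (Q (p.trans q.symm)).trans (Q q) = Q p := by
    intro a b d p q
    show ((Q p).trans (Q q).symm).trans (Q q) = Q p
    rw [Path.Homotopic.Quotient.trans_assoc, Path.Homotopic.Quotient.symm_trans,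
      Path.Homotopic.Quotient.trans_refl]
  have h7 : (Q (γ.trans ξ.symm).symm).trans (Q γ) = Q ξ := by
    have := alg γ ξ
    show (Q (γ.trans ξ.symm)).symm.trans (Q γ) = Q ξ
    rw [← this, ← Path.Homotopic.Quotient.trans_assoc, Path.Homotopic.Quotient.symm_trans,
      Path.Homotopic.Quotient.refl_trans]
  have h8 : ((γ.trans ξ.symm).symm.trans γ).Homotopic ξ := Path.Homotopic.Quotient.eq.mp h7
  have h4 : len V (ξ.map ψ.continuous) ≤
      len V ((γ.trans ξ.symm).map ψ.continuous) + len V (γ.map ψ.continuous) := by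
    have h5 : (((γ.trans ξ.symm).symm.trans γ).map ψ.continuous).Homotopic (ξ.map ψ.continuous) :=
      Path.Homotopic.map (f := (ψ : C(X, X))) h8
    rw [← len_homotopic h5, Path.map_trans]
    refine (len_trans hV _ _).trans ?_
    have e : len V ((γ.trans ξ.symm).symm.map ψ.continuous) =
        len V ((γ.trans ξ.symm).map ψ.continuous) := by
      have := len_symm hV ((γ.trans ξ.symm).map ψ.continuous)
      rw [← this]
      rfl
    rw [e]
  have h6 : len V γ ≤ K + len V ξ := by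
    have h5 := alg γ ξ
    have h9 : ((γ.trans ξ.symm).trans ξ).Homotopic γ := Path.Homotopic.Quotient.eq.mp h5
    rw [← len_homotopic h9]
    refine (len_trans hV _ _).trans ?_
    omega
  have r3 : (len V ((γ.trans ξ.symm).map ψ.continuous) : ℝ) ≤ (B : ℝ) ^ N * K := by
    exact_mod_cast h3
  have r4 : (len V (ξ.map ψ.continuous) : ℝ) ≤
      len V ((γ.trans ξ.symm).map ψ.continuous) + len V (γ.map ψ.continuous) := by
    exact_mod_cast h4
  have r6 : (len V γ : ℝ) ≤ K + len V ξ := by exact_mod_cast h6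
  have r7 : ν * (len V γ : ℝ) ≤ ν * (K + len V ξ) := mul_le_mul_of_nonneg_left r6 hν.le
  have r8 : ν * (len V ξ : ℝ) ≤ (B : ℝ) ^ N * K + 2 * C + ν * K := by nlinarith
  have r9 : (len V ξ : ℝ) ≤ ((B : ℝ) ^ N * K + 2 * C) / ν + K := by
    rw [← sub_le_iff_le_add, le_div_iff₀ hν]
    nlinarith
  linarith

end metric

section sys

variable {E : Type*} [NormedAddCommGroup E] [NormedSpace ℝ E] [FiniteDimensional ℝ E]
  {G : Type*} [NormedAddCommGroup G] [NormedSpace ℝ G]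
  {M : Type*} [MetricSpace M] [CompactSpace M] [ConnectedSpace M] [ChartedSpace E M]

theorem Dominated.symm {X : Type*} [MetricSpace X] [CompactSpace X] {F : X ≃ₜ X}
    {V : Set (X × X)} (h : Dominated F V) : Dominated F.symm V := by
  obtain ⟨N, ν, C, hν, h1, h2⟩ := h
  have hpp : ∀ c : C(I, X), push F N (push F.symm N c) = c := fun c => by
    have := push_symm_push F.symm N N le_rfl c
    rwa [Nat.sub_self, push_zero] at this
  refine ⟨N, 1 / (2 * ν), max (C / (2 * ν)) (C / ν), by positivity, fun c hc => ?_, fun c hc => ?_⟩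
  · have h3 := h2 (push F.symm N c) ((shrinks_iff _ _).mpr (((shrinks_iff _ _).mp hc).push N))
    rw [hpp] at h3
    have h4 : (hl V (push F.symm N c) : ℝ) ≤ (hl V c + C) / (2 * ν) := by
      rw [le_div_iff₀ (by positivity)]
      linarith
    have h5 : ((hl V c : ℝ) + C) / (2 * ν) = 1 / (2 * ν) * hl V c + C / (2 * ν) := by ring
    have h6 := le_max_left (C / (2 * ν)) (C / ν)
    linarith
  · have hc' : Shrinks F c := hc
    have h3 := h1 (push F.symm N c) ((shrinks_iff _ _).mpr (by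
      have h7 := (shrinks_iff _ _).mp hc'
      intro ε hε
      obtain ⟨m, hm⟩ := h7 ε hε
      refine ⟨m + N, fun k hk s t => ?_⟩
      show dist (F^[k] (F.symm^[N] (c s))) (F^[k] (F.symm^[N] (c t))) < ε
      have e : ∀ v : X, F^[k] (F.symm^[N] v) = F^[k - N] v := fun v => by
        have e1 : k = (k - N) + N := by omega
        conv_lhs => rw [e1, Function.iterate_add_apply, iterR]
      rw [e, e]
      exact hm _ (by omega) s t))
    rw [hpp] at h3
    have h4 : (hl V c : ℝ) / ν ≤ hl V (push F.symm N c) + C / ν := by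
      rw [div_le_iff₀ hν, add_mul, div_mul_cancel₀ _ hν.ne']
      linarith
    have h5 : 2 * (1 / (2 * ν)) * (hl V c : ℝ) = hl V c / ν := by
      field_simp
    have h6 := le_max_right (C / (2 * ν)) (C / ν)
    rw [h5]
    linarith

theorem LargeHyp.symm {X : Type*} [TopologicalSpace X] {F : X ≃ₜ X}
    {V : Set (X × X)} (h : LargeHyp F V) : LargeHyp F.symm V := by
  obtain ⟨N, R, hN, h1⟩ := h
  refine ⟨N, R, hN, fun c hc => ?_⟩
  have := h1 c hc
  rw [max_comm] at this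
  exact this

/-- from coarse transversality to the covering -/
theorem sys_CT (S : HypSys M G) (F : M ≃ₜ M) (n : ℕ) (hn : 1 ≤ n)
    (hg : ∀ k x, S.g^[k] x = F^[n * k] x) (hg' : ∀ k x, S.g.symm^[k] x = F.symm^[n * k] x)
    {V : Set (M × M)} (hV : Nb V) (hCT : CT F V) :
    ∃ π : E → M, IsCoveringMap π ∧ Function.Surjective π := by
  have : ProperSpace E := FiniteDimensional.proper_real E
  obtain ⟨c, hLP⟩ := exists_LP S
  have hX : ULC M := ulc_of_charted (X := M) (E := E)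
  have hgF : ∀ x, F (S.g x) = S.g (F x) := fun x => by
    have h1 := hg 1 x
    have h2 := hg 1 (F x)
    simp only [Function.iterate_one, mul_one] at h1 h2
    rw [h1, h2]
    exact (Function.iterate_succ_apply' F n x).symm.trans (Function.iterate_succ_apply F n x)
  have hLf := Lf_of_CT hLP hX hn hg hg' hgF hV hCT
  obtain ⟨π, hπ⟩ := cov_of_Lf (E := E) S hLP hLf
  exact ⟨π, hπ, covering_surj hπ⟩

/-- coarse transversality at a small scale -/
theorem CT_of_hyp (S : HypSys M G) (F : M ≃ₜ M) (n : ℕ) (hn : 1 ≤ n)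
    (hg : ∀ k x, S.g^[k] x = F^[n * k] x) {V : Set (M × M)} (hV : Nb V) (hX : ULC M) {B : ℕ}
    (hB1 : 1 ≤ B) (hBF : ∀ (x y : M) (p : Path x y), len V (p.map F.continuous) ≤ B * len V p)
    (hBF' : ∀ (x y : M) (p : Path x y), len V (p.map F.symm.continuous) ≤ B * len V p)
    (hyp : (Dominated F V ∧ ProperlyEmbedded F V) ∨ (LargeHyp F V ∧ Unbdd F V)) : CT F V := by
  obtain ⟨c, hLP⟩ := exists_LP S
  have hgF : ∀ x, F (S.g x) = S.g (F x) := fun x => by
    have h1 := hg 1 x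
    have h2 := hg 1 (F x)
    simp only [Function.iterate_one, mul_one] at h1 h2
    rw [h1, h2]
    exact (Function.iterate_succ_apply' F n x).symm.trans (Function.iterate_succ_apply F n x)
  rcases hyp with ⟨⟨N, ν, C, hν, d1, d2⟩, hP⟩ | ⟨⟨N, R, hN, hBFh⟩, hU⟩
  · refine CT_of_proper (fun K => ?_) hP
    refine ⟨⌈2 * (K : ℝ) + ((B : ℝ) ^ N * K + 2 * C) / ν⌉₊, fun x y z γ ξ hγ hξ hK => ?_⟩
    have h3 := quad_dom hV hν (fun c hc => d1 c ((shrinks_iff F c).mpr hc))
      (fun c hc => d2 c ((shrinks_iff F.symm c).mpr hc)) hBF γ ξ hγ hξ hK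
    exact_mod_cast h3.trans (Nat.le_ceil _)
  · exact CT_of_growth hLP hX hn hg hgF hV hN hBFh hB1 hBF hBF'
      (fun c hc => hU c ((shrinks_iff F c).mpr hc))

theorem sys_main (S : HypSys M G) (F : M ≃ₜ M) (n : ℕ) (hn : 1 ≤ n)
    (hg : ∀ k x, S.g^[k] x = F^[n * k] x) (hg' : ∀ k x, S.g.symm^[k] x = F.symm^[n * k] x)
    (hR : ∀ 𝒲 ∈ 𝓝ˢ (diagonal M), ∃ V ∈ 𝓝ˢ (diagonal M), V ⊆ 𝒲 ∧
      ((Dominated F V ∧ (ProperlyEmbedded F V ∨ ProperlyEmbedded F.symm V)) ∨
        (LoopHyp F V ∧ (Unbdd F V ∨ Unbdd F.symm V ∨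
          (NielsenUnique F ∧ (OneCommon F ∨ Dense {x | ∃ m, 1 ≤ m ∧ F^[m] x = x})))))) :
    ∃ π : E → M, IsCoveringMap π ∧ Function.Surjective π := by
  have hX : ULC M := ulc_of_charted (X := M) (E := E)
  obtain ⟨δ₁, hδ₁, hmap⟩ := len_map hX
  obtain ⟨δ₂, hδ₂, hfin⟩ := exists_cl hX
  set δ := min δ₁ δ₂ with hδd
  have hδ : 0 < δ := lt_min hδ₁ hδ₂
  have hball : {p : M × M | dist p.1 p.2 < δ} ∈ 𝓝ˢ (diagonal M) := by
    rw [nhdsSet_diagonal_eq_uniformity]
    exact Metric.dist_mem_uniformity hδ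
  obtain ⟨V, hVm, hVW, hyp⟩ := hR _ hball
  have hV : Nb V := nb_of_mem hVm
  have hVδ : ∀ x y : M, (x, y) ∈ V → dist x y < δ₁ := fun x y hxy =>
    lt_of_lt_of_le (hVW hxy) (min_le_left _ _)
  have hVδ₂ : ∀ x y : M, (x, y) ∈ V → dist x y < δ₂ := fun x y hxy =>
    lt_of_lt_of_le (hVW hxy) (min_le_right _ _)
  obtain ⟨B1, hB1⟩ := hmap V hV hVδ (F : C(M, M))
  obtain ⟨B2, hB2⟩ := hmap V hV hVδ (F.symm : C(M, M))
  set B := max 1 (max B1 B2) with hB
  have b1 : B1 ≤ B := (le_max_left _ _).trans (le_max_right _ _)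
  have b2 : B2 ≤ B := (le_max_right _ _).trans (le_max_right _ _)
  have hBF : ∀ (x y : M) (p : Path x y), len V (p.map F.continuous) ≤ B * len V p :=
    fun x y p => (hB1 x y p).trans (Nat.mul_le_mul_right _ b1)
  have hBF' : ∀ (x y : M) (p : Path x y), len V (p.map F.symm.continuous) ≤ B * len V p :=
    fun x y p => (hB2 x y p).trans (Nat.mul_le_mul_right _ b2)
  have hPC : PathConnectedSpace M := by
    have : LocallyPathConnectedSpace M := ChartedSpace.locallyPathConnectedSpace E M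
    exact pathConnectedSpace_iff_connectedSpace.mpr inferInstance
  obtain ⟨D, hD⟩ := diam_bdd hX hV
  have hLH : LoopHyp F V → LargeHyp F V := by
    rintro ⟨N, R, hN, h⟩
    obtain ⟨R', hR'⟩ := bf_of_loops hV hBF hBF' hD (N := N) (R := R) h
    exact ⟨2 * N, R', by omega, hR'⟩
  rcases hyp with ⟨h1, h2 | h2⟩ | ⟨h1, h2⟩
  · exact sys_CT S F n hn hg hg' hV (CT_of_hyp S F n hn hg hV hX (le_max_left _ _) hBF hBF'
      (Or.inl ⟨h1, h2⟩))
  · exact sys_CT S.symm F.symm n hn hg' hg hV (CT_of_hyp S.symm F.symm n hn hg' hV hX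
      (le_max_left _ _) hBF' hBF (Or.inl ⟨h1.symm, h2⟩))
  have h1 := hLH h1
  rcases h2 with h2 | h2 | ⟨h2, h3⟩
  · exact sys_CT S F n hn hg hg' hV (CT_of_hyp S F n hn hg hV hX (le_max_left _ _) hBF hBF'
      (Or.inr ⟨h1, h2⟩))
  · exact sys_CT S.symm F.symm n hn hg' hg hV (CT_of_hyp S.symm F.symm n hn hg' hV hX
      (le_max_left _ _) hBF' hBF (Or.inr ⟨h1.symm, h2⟩))
  · obtain ⟨c, hLP⟩ := exists_LP S
    have hNB : NB F V := nb_of_nielsen hX S hLP hn hg hg' h2 (h3.imp (fun h c d hc hd =>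
      h c d ((shrinks_iff F c).mpr hc) ((shrinks_iff F.symm d).mpr hd)) id) (hfin V hV hVδ₂)
    exact sys_CT S F n hn hg hg' hV (CT_of_hyp S F n hn hg hV hX (le_max_left _ _) hBF hBF'
      (Or.inr ⟨h1, fun c hc => hNB c ((shrinks_iff F c).mp hc)⟩))

end sys

end Pool.Agent.T6.H46.DL
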