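import Pool.Agent.T6.H46.DL.Shad

set_option autoImplicit false

open Filter Topology Set Metric unitInterval

namespace Pool.Agent.T6.H46.DL

open Pool.Agent.H789R2.AN Pool.Agent.H789R2.GP Pool.Agent.H721R2 Pool.Agent.T6.H66.PS

section top

variable {M : Type*} [TopologicalSpace M]

/-- the lifts of the iterates have at most one fixed point -/
def NielsenUnique (f : M ≃ₜ M) : Prop :=
  ∀ n : ℕ, 1 ≤ n → ∀ c : C(I, M), (push f n c).HomotopicRel c {0, 1} →
    c.HomotopicRel (ContinuousMap.const I (c 0)) {0, 1}

end top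

variable {X : Type*} [MetricSpace X] {G : Type*} [NormedAddCommGroup G] [NormedSpace ℝ G]

theorem shC_push_symm {F : X ≃ₜ X} {c : C(I, X)} (h : ShC F c) (N : ℕ) :
    ShC F (push F.symm N c) := by
  intro ε hε
  obtain ⟨m, hm⟩ := h ε hε
  refine ⟨m + N, fun k hk s t => ?_⟩
  show dist (F^[k] (F.symm^[N] (c s))) (F^[k] (F.symm^[N] (c t))) < ε
  have e : ∀ v : X, F^[k] (F.symm^[N] v) = F^[k - N] v := fun v => by
    have e1 : k = (k - N) + N := by omega
    conv_lhs => rw [e1, Function.iterate_add_apply, iterR]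
  rw [e, e]
  exact hm _ (by omega) s t

theorem push_push_symm (φ : X ≃ₜ X) (k l : ℕ) (h : k ≤ l) (c : C(I, X)) :
    push φ k (push φ.symm l c) = push φ.symm (l - k) c := push_symm_push φ.symm k l h c

theorem diag_of_closed [CompactSpace X] (hX : ULC X) (S : HypSys X G) {F : X ≃ₜ X} {c : ℝ}
    (h : LP S.g c) {n₀ : ℕ} (hn₀ : 1 ≤ n₀) (hg : ∀ k x, S.g^[k] x = F^[n₀ * k] x)
    (hD1 : NielsenUnique F) : ∀ r > 0, ∃ δ > 0, ∀ n : ℕ, 1 ≤ n → ∀ w : ℕ → C(I, X), w n = w 0 →
      (∀ j < n, Cl δ (push S.g 1 (w j)) (w (j + 1))) → Dg r (w 0) := by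
  intro r hr
  obtain ⟨δ, hδ, hcl⟩ := pair_closing hX S h (r / 4) (by linarith)
  refine ⟨δ, hδ, fun n hn w hwn hw => ?_⟩
  obtain ⟨e, he1, he2⟩ := hcl n hn w hwn hw
  have e1 : push S.g n e = push F (n₀ * n) e := by
    ext t
    exact hg n (e t)
  rw [e1] at he1
  have h1 := hD1 (n₀ * n) (by nlinarith) e he1
  have h2 : Cl (r / 4) (ContinuousMap.const I (e 0)) e := cl_of_hom (by linarith) h1.symm
  have h3 := (h2.trans he2).mono (r' := r / 2) (by linarith)
  have h4 := dg_of_cl h3
  have e2 : 2 * (r / 2) = r := by ring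
  rwa [e2] at h4

theorem nb_of_nielsen [CompactSpace X] (hX : ULC X) (S : HypSys X G) {F : X ≃ₜ X} {c₀ : ℝ}
    (h : LP S.g c₀) {n₀ : ℕ} (hn₀ : 1 ≤ n₀) (hg : ∀ k x, S.g^[k] x = F^[n₀ * k] x)
    (hg' : ∀ k x, S.g.symm^[k] x = F.symm^[n₀ * k] x) (hD1 : NielsenUnique F)
    (hD2 : (∀ c d : C(I, X), ShC F c → ShC F.symm d → c.HomotopicRel d {0, 1} → c 0 = c 1) ∨
      Dense {x | ∃ m, 1 ≤ m ∧ F^[m] x = x}) {V : Set (X × X)}
    (hfin : ∀ ε > 0, ∀ (K : ℕ) (c : ℕ → C(I, X)), (∀ i, hl V (c i) ≤ K) →
      ∃ i j, i < j ∧ Cl ε (c i) (c j)) : NB F V := by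
  intro c hc hne K
  by_contra hcon
  push Not at hcon
  obtain ⟨δs, hδs, hsm⟩ := small_hom hX
  obtain ⟨η, hη, hleaf⟩ := leaf_path h.symm hX (δs / 2) (by linarith)
  set r1 := min η (δs / 2) with hr1
  have hr10 : 0 < r1 := lt_min hη (by linarith)
  have hr1η : r1 ≤ η := min_le_left _ _
  have hr1s : r1 ≤ δs / 2 := min_le_right _ _
  obtain ⟨δ, hδ, hdiag⟩ := diag_of_closed hX S h hn₀ hg hD1 r1 hr10
  let ck : ℕ → C(I, X) := fun k => push S.g.symm k c
  have hck : ∀ k, ck k = push F.symm (n₀ * k) c := fun k => by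
    ext t
    exact hg' k (c t)
  have hckK : ∀ k, hl V (ck k) ≤ K := fun k => by rw [hck]; exact hcon _
  by_cases hfr : ∃ᶠ k in atTop, ¬ Dg r1 (ck k)
  · obtain ⟨φ, hφ, hφ'⟩ := extraction_of_frequently_atTop hfr
    obtain ⟨i, j, hij, hcl⟩ := hfin δ hδ K (fun i => ck (φ i)) (fun i => hckK _)
    have h12 : φ i < φ j := hφ hij
    set n := φ j - φ i with hn
    have hn1 : 1 ≤ n := by omega
    let w : ℕ → C(I, X) := fun l => if l < n then push S.g l (ck (φ j)) else ck (φ j)
    have hw0 : w 0 = ck (φ j) := by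
      show (if 0 < n then push S.g 0 (ck (φ j)) else ck (φ j)) = _
      rw [if_pos (by omega), push_zero]
    have hwn : w n = ck (φ j) := by
      show (if n < n then push S.g n (ck (φ j)) else ck (φ j)) = _
      rw [if_neg (lt_irrefl n)]
    refine hφ' j ?_
    rw [← hw0]
    refine hdiag n hn1 w (by rw [hwn, hw0]) fun l hl => ?_
    have hwl : w l = push S.g l (ck (φ j)) := if_pos hl
    rw [hwl, push_push]
    by_cases hl2 : l + 1 < n
    · have hwl' : w (l + 1) = push S.g (l + 1) (ck (φ j)) := if_pos hl2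
      rw [hwl', add_comm 1 l]
      exact Cl.refl hδ _
    · have hwl' : w (l + 1) = ck (φ j) := if_neg hl2
      have e : 1 + l = n := by omega
      rw [hwl', e]
      have e2 : push S.g n (ck (φ j)) = ck (φ i) := by
        show push S.g n (push S.g.symm (φ j) c) = push S.g.symm (φ i) c
        rw [push_push_symm S.g n (φ j) (by omega)]
        congr 1
        omega
      rw [e2]
      exact hcl
  · rw [not_frequently] at hfr
    simp only [not_not] at hfr
    obtain ⟨k0, hk0⟩ := eventually_atTop.mp hfr
    set c' : C(I, X) := ck k0 with hc'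
    have hc's : ShC F c' := by
      rw [hc', hck]
      exact shC_push_symm hc _
    have hne' : c' 0 ≠ c' 1 := by
      intro he
      apply hne
      exact (S.g.symm.injective.iterate k0) he
    have hSR : SR S.g.symm r1 (c' 0) (c' 1) := by
      intro j
      obtain ⟨d, hd, -⟩ := hk0 (j + k0) (by omega)
      have h1 := hd 1
      rw [d.target, dist_comm] at h1
      show dist (S.g.symm^[j] (S.g.symm^[k0] (c 0))) (S.g.symm^[j] (S.g.symm^[k0] (c 1))) ≤ r1
      rw [← Function.iterate_add_apply, ← Function.iterate_add_apply]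
      exact h1.le
    obtain ⟨υ, hυ0, hυ1, hυ⟩ := hleaf ⟨c' 0⟩ ⟨c' 1⟩ ((SM.dist_le _ _ hη.le).mpr (hSR.mono hr1η))
    let dd : Path (c' 0) (c' 1) := ⟨vp υ, by show (υ 0).val = _; rw [hυ0],
      by show (υ 1).val = _; rw [hυ1]⟩
    have hdd : ∀ t, dist (dd t) (c' 0) ≤ δs / 2 := fun t => by
      have := (SM.dist_le _ _ (by linarith : (0 : ℝ) ≤ δs / 2)).mp (hυ t) 0
      rw [dist_comm]; exact this
    have hdds : ShC F.symm (dd : C(I, X)) := shr_leaf h.symm hn₀ hg' υ
    have hhom : c'.HomotopicRel (dd : C(I, X)) {0, 1} := by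
      obtain ⟨d0, hd0, hd0'⟩ := hk0 k0 le_rfl
      have h1 : dd.Homotopic d0 := hsm (c' 0) _ _ dd d0 (fun t => by linarith [hdd t])
        (fun t => by
          have : dist (d0 t) (c' 0) < r1 := hd0 t
          linarith)
      have h2 : d0.Homotopic (pth c') := Path.Homotopic.Quotient.eq.mp hd0'
      exact (h1.trans h2).symm
    rcases hD2 with hD2 | hD2
    · exact hne' (hD2 c' dd hc's hdds hhom)
    · set r2 := dist (c' 0) (c' 1) with hr2
      have hr20 : 0 < r2 := dist_pos.mpr hne'
      obtain ⟨δ2, hδ2, hdiag2⟩ := diag_of_closed hX S h hn₀ hg hD1 r2 hr20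
      obtain ⟨δcs, hδcs, hcs⟩ := cl_small hX
      obtain ⟨ρ, hρ, hρ'⟩ := hcs (δ2 / 2) (half_pos hδ2)
      have hμ : 0 < min δcs (ρ / 2) := lt_min hδcs (by linarith)
      obtain ⟨m1, hm1⟩ := (Shr.g hn₀ hg hc's) _ hμ
      obtain ⟨m2, hm2⟩ := (Shr.g hn₀ hg' hdds) _ hμ
      set T := max 1 (max m1 m2) with hT
      have t0 : 1 ≤ T := le_max_left _ _
      have t1 : m1 ≤ T := (le_max_left _ _).trans (le_max_right _ _)
      have t2 : m2 ≤ T := (le_max_right _ _).trans (le_max_right _ _)
      obtain ⟨θ1, hθ1, hu1⟩ := T1_unif S.g T (half_pos hρ)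
      obtain ⟨θ2, hθ2, hu2⟩ := T1_unif S.g.symm T (half_pos hρ)
      obtain ⟨x', ⟨m, hm, hmx⟩, hx'⟩ := hD2.exists_dist_lt (c' 0) (lt_min hθ1 hθ2)
      have hx1 : dist (c' 0) x' < θ1 := lt_of_lt_of_le hx' (min_le_left _ _)
      have hx2 : dist (c' 0) x' < θ2 := lt_of_lt_of_le hx' (min_le_right _ _)
      set n := m * (2 * T + 1) with hn
      have hn1 : 2 * T + 1 ≤ n := by nlinarith
      have hgx : S.g^[n] x' = x' := by
        rw [hg, hn, show n₀ * (m * (2 * T + 1)) = m * (n₀ * (2 * T + 1)) by ring,
          Function.iterate_mul]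
        exact Function.iterate_fixed hmx _
      set dC : C(I, X) := (dd : C(I, X)) with hdC
      have dC0 : dC 0 = c' 0 := dd.source
      have dC1 : dC 1 = c' 1 := dd.target
      let w : ℕ → C(I, X) := fun j => if j < T then push S.g j dC else
        if j < n - T then ContinuousMap.const I (S.g^[j] x') else push S.g.symm (n - j) dC
      have w1 : ∀ j, j < T → w j = push S.g j dC := fun j hj => if_pos hj
      have w2 : ∀ j, T ≤ j → j < n - T → w j = ContinuousMap.const I (S.g^[j] x') :=
        fun j hj hj' => by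
          show (if j < T then _ else _) = _
          rw [if_neg (by omega), if_pos hj']
      have w3 : ∀ j, T ≤ j → n - T ≤ j → w j = push S.g.symm (n - j) dC := fun j hj hj' => by
          show (if j < T then _ else _) = _
          rw [if_neg (by omega), if_neg (by omega)]
      have hw0 : w 0 = dC := by rw [w1 0 (by omega), push_zero]
      have hwn : w n = dC := by rw [w3 n (by omega) (by omega), Nat.sub_self, push_zero]
      have hfinal := hdiag2 n (by omega) w (by rw [hwn, hw0]) (fun j hj => ?_)
      · rw [hw0] at hfinal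
        obtain ⟨d, hd, -⟩ := hfinal
        have h1 := hd 1
        rw [d.target, dC0, dC1, dist_comm] at h1
        exact lt_irrefl _ h1
      · rcases lt_or_ge j T with hjT | hjT
        · rw [w1 j hjT, push_push]
          rcases lt_or_ge (j + 1) T with h5 | h5
          · rw [w1 _ h5, add_comm 1 j]
            exact Cl.refl hδ2 _
          · have e : 1 + j = T := by omega
            rw [w2 (j + 1) h5 (by omega), e, show j + 1 = T by omega]
            have e1 : (push S.g T dC).HomotopicRel (push S.g T c') {0, 1} := by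
              have h6 := Path.Homotopic.map (f := ((iterHomeo S.g T : X ≃ₜ X) : C(X, X)))
                (p := dd) (q := pth c') hhom.symm
              exact h6
            have e2 := cl_of_hom (half_pos hδ2) e1
            have e3 : Cl (δ2 / 2) (push S.g T c') (ContinuousMap.const I (S.g^[T] x')) := by
              apply hρ'
              · intro t
                exact lt_of_lt_of_le (hm1 T t1 t 0) (min_le_left _ _)
              · intro t
                show dist (S.g^[T] x') (S.g^[T] x') < δcs
                rw [dist_self]; exact hδcs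
              · show dist (S.g^[T] (c' 0)) (S.g^[T] x') < ρ
                linarith [hu1 T le_rfl _ _ hx1]
              · show dist (S.g^[T] (c' 1)) (S.g^[T] x') < ρ
                have a1 := hu1 T le_rfl _ _ hx1
                have a2 : dist (S.g^[T] (c' 1)) (S.g^[T] (c' 0)) < ρ / 2 :=
                  lt_of_lt_of_le (hm1 T t1 1 0) (min_le_right _ _)
                have a3 := dist_triangle (S.g^[T] (c' 1)) (S.g^[T] (c' 0)) (S.g^[T] x')
                linarith
            exact (e2.trans e3).mono (by linarith)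
        · rcases lt_or_ge j (n - T) with h5 | h5
          · have e0 : push S.g 1 (w j) = ContinuousMap.const I (S.g^[j + 1] x') := by
              rw [w2 j hjT h5]
              ext t
              exact (Function.iterate_succ_apply' S.g j x').symm
            rw [e0]
            rcases lt_or_ge (j + 1) (n - T) with h6 | h6
            · rw [w2 (j + 1) (by omega) h6]
              exact Cl.refl hδ2 _
            · rw [w3 (j + 1) (by omega) h6]
              have e1 : n - (j + 1) = T := by omega
              rw [e1]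
              have e2 : S.g^[j + 1] x' = S.g.symm^[T] x' := by
                have e3 : S.g^[T] (S.g^[j + 1] x') = x' := by
                  rw [← Function.iterate_add_apply, show T + (j + 1) = n by omega, hgx]
                conv_rhs => rw [← e3]
                rw [iterL]
              rw [e2]
              refine (hρ' _ _ ?_ ?_ ?_ ?_).mono (by linarith : δ2 / 2 ≤ δ2)
              · intro t
                show dist (S.g.symm^[T] x') (S.g.symm^[T] x') < δcs
                rw [dist_self]; exact hδcs
              · intro t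
                exact lt_of_lt_of_le (hm2 T t2 t 0) (min_le_left _ _)
              · show dist (S.g.symm^[T] x') (S.g.symm^[T] (dC 0)) < ρ
                rw [dC0, dist_comm]
                linarith [hu2 T le_rfl _ _ hx2]
              · show dist (S.g.symm^[T] x') (S.g.symm^[T] (dC 1)) < ρ
                have a1 := hu2 T le_rfl _ _ hx2
                have a2 : dist (S.g.symm^[T] (dC 0)) (S.g.symm^[T] (dC 1)) < ρ / 2 :=
                  lt_of_lt_of_le (hm2 T t2 0 1) (min_le_right _ _)
                have a3 := dist_triangle (S.g.symm^[T] x') (S.g.symm^[T] (c' 0))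
                  (S.g.symm^[T] (dC 1))
                rw [dC0] at a2
                rw [dist_comm] at a1
                linarith
          · rw [w3 j hjT h5, w3 (j + 1) (by omega) (by omega),
              push_push_symm S.g 1 (n - j) (by omega)]
            rw [show n - j - 1 = n - (j + 1) by omega]
            exact Cl.refl hδ2 _

end Pool.Agent.T6.H46.DL
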