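import Pool.Agent.T6.H46.DL.Growth

set_option autoImplicit false

open Filter Topology Set Metric unitInterval

namespace Pool.Agent.T6.H46.DL

open Pool.Agent.H789R2.AN Pool.Agent.H789R2.GP Pool.Agent.H721R2 Pool.Agent.T6.H66.PS

variable {X : Type*} [MetricSpace X]

/-- no stable path with distinct end points has bounded backward homotopy lengths -/
def NB (F : X ≃ₜ X) (V : Set (X × X)) : Prop :=
  ∀ c : C(I, X), ShC F c → c 0 ≠ c 1 → ∀ K : ℕ, ∃ k, K < hl V (push F.symm k c)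

theorem SR_to_F [CompactSpace X] {g F : X ≃ₜ X} {n : ℕ} (hn : 1 ≤ n)
    (hg : ∀ k x, g^[k] x = F^[n * k] x) {η : ℝ} (hη : 0 < η) : ∃ η' > 0, ∀ x y : X, SR g η' x y →
      ∀ j : ℕ, dist (F^[j] x) (F^[j] y) ≤ η := by
  obtain ⟨η₁, hη₁, h1⟩ := T1_unif F n hη
  refine ⟨η₁ / 2, half_pos hη₁, fun x y hxy k => ?_⟩
  have h2 := Nat.div_add_mod k n
  have h3 := Nat.mod_lt k (show 0 < n by omega)
  have h4 : ∀ z : X, F^[k] z = F^[k % n] (g^[k / n] z) := fun z => by
    rw [hg, ← Function.iterate_add_apply]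
    congr 1
    omega
  rw [h4, h4]
  exact (h1 _ h3.le _ _ (lt_of_le_of_lt (hxy _) (half_lt_self hη₁))).le

theorem proper [CompactSpace X] {g F : X ≃ₜ X} {c : ℝ} (h : LP g c) (hX : ULC X) {n : ℕ}
    (hn : 1 ≤ n) (hg : ∀ k x, g^[k] x = F^[n * k] x) (hgF : ∀ x, F (g x) = g (F x))
    {V : Set (X × X)} (hV : Nb V) {N R B : ℕ} (hN : 1 ≤ N) (hBF : BF F V N R) (hB1 : 1 ≤ B)
    (hB : ∀ (x y : X) (p : Path x y), len V (p.map F.continuous) ≤ B * len V p)
    (hNB : NB F V) : ∀ K : ℕ, ∀ η > 0, ∃ m : ℕ, ∀ c : C(I, X), ShC F c → hl V c ≤ K →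
      ∀ k ≥ m, dist (F^[k] (c 0)) (F^[k] (c 1)) ≤ η := by
  intro K η hη
  by_contra hcon
  push Not at hcon
  choose γ hγs hγK kk hkk hkη using hcon
  obtain ⟨δ0, hδ0, h0⟩ := small_hom hX
  obtain ⟨η1, hη1, hleaf⟩ := leaf_path h hX (δ0 / 8) (by linarith)
  obtain ⟨ηa, hηa, ha⟩ := SR_to_F hn hg hη
  have hc := h.c_pos
  set η' := min ηa (min η1 c) with hη'
  have hη'0 : 0 < η' := by positivity
  have l1 : η' ≤ ηa := min_le_left _ _
  have l2 : η' ≤ η1 := (min_le_right _ _).trans (min_le_left _ _)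
  have l3 : η' ≤ c := (min_le_right _ _).trans (min_le_right _ _)
  have hex : ∀ m, ∃ j, SR g η' (F^[j] (γ m 0)) (F^[j] (γ m 1)) := by
    intro m
    obtain ⟨j, hj⟩ := hγs m η' hη'0
    refine ⟨j, fun i => ?_⟩
    rw [hg, hg, ← Function.iterate_add_apply, ← Function.iterate_add_apply]
    exact (hj _ (by omega) 0 1).le
  classical
  let nn : ℕ → ℕ := fun m => Nat.find (hex m)
  have hnn : ∀ m, SR g η' (F^[nn m] (γ m 0)) (F^[nn m] (γ m 1)) := fun m => Nat.find_spec (hex m)
  have hnm : ∀ m, m < nn m := by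
    intro m
    by_contra hle
    push Not at hle
    have h1 := ha _ _ ((hnn m).mono l1) (kk m - nn m)
    rw [← Function.iterate_add_apply, ← Function.iterate_add_apply,
      Nat.sub_add_cancel (hle.trans (hkk m))] at h1
    linarith [hkη m]
  obtain ⟨η2, hη2, h2⟩ := map_SM (g := g) (φ := F.symm) (comm_symm_left hgF) η' hη'0
  obtain ⟨ρ', hρ', h3⟩ := SR_of_close h hη2
  let z : ℕ → X × X := fun m => (F^[nn m] (γ m 0), F^[nn m] (γ m 1))
  have hzd : ∀ m, ρ' ≤ dist (z m).1 (z m).2 := by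
    intro m
    by_contra hlt
    push Not at hlt
    have h4 := h2 _ _ (h3 _ _ ((hnn m).mono l3) hlt)
    have h5 : nn m - 1 < nn m := by have := hnm m; omega
    refine Nat.find_min (hex m) h5 ?_
    have e : ∀ v : X, F.symm (F^[nn m] v) = F^[nn m - 1] v := fun v => by
      have e1 : nn m = (nn m - 1) + 1 := by omega
      conv_lhs => rw [e1, Function.iterate_succ_apply', F.symm_apply_apply]
    rwa [e, e] at h4
  obtain ⟨⟨x, y⟩, -, φ, hφ, hlim⟩ := (isCompact_univ : IsCompact (univ : Set (X × X))).tendsto_subseq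
    (fun m => mem_univ (z m))
  have lim1 : Tendsto (fun m => (z (φ m)).1) atTop (𝓝 x) := (continuous_fst.tendsto _).comp hlim
  have lim2 : Tendsto (fun m => (z (φ m)).2) atTop (𝓝 y) := (continuous_snd.tendsto _).comp hlim
  have hxy : ρ' ≤ dist x y := ge_of_tendsto' (lim1.dist lim2) fun m => hzd _
  have hSR : SR g η' x y := by
    intro k
    have hck : Continuous (g^[k]) := g.continuous.iterate k
    exact le_of_tendsto' (((hck.tendsto x).comp lim1).dist ((hck.tendsto y).comp lim2))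
      fun m => hnn (φ m) k
  obtain ⟨υ, hυ0, hυ1, hυ⟩ := hleaf ⟨x⟩ ⟨y⟩ ((SM.dist_le _ _ hη1.le).mpr (hSR.mono l2))
  let ζ : Path x y := ⟨vp υ, by show (υ 0).val = x; rw [hυ0], by show (υ 1).val = y; rw [hυ1]⟩
  have hζs : ShC F (ζ : C(I, X)) := shr_leaf h hn hg υ
  have hne : (ζ : C(I, X)) 0 ≠ (ζ : C(I, X)) 1 := by
    show ζ 0 ≠ ζ 1
    rw [ζ.source, ζ.target]
    intro hcon
    rw [hcon, dist_self] at hxy
    linarith
  set K4 := B ^ N * max (max R 1) K with hK4
  obtain ⟨k, hk⟩ := hNB _ hζs hne (K4 + 2)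
  obtain ⟨ε, hε, hV'⟩ := id hV
  obtain ⟨θ, hθ, hT⟩ := T1_unif F.symm k hε
  obtain ⟨δ2, hδ2, hp⟩ := hX.path (min (θ / 2) (δ0 / 8)) (lt_min (by linarith) (by linarith))
  have m1 : min (θ / 2) (δ0 / 8) ≤ θ / 2 := min_le_left _ _
  have m2 : min (θ / 2) (δ0 / 8) ≤ δ0 / 8 := min_le_right _ _
  set δ3 := min δ2 (δ0 / 8) with hδ3
  have hδ30 : 0 < δ3 := by positivity
  obtain ⟨M, ⟨hM1, hM2⟩, hM3⟩ := (((Metric.tendsto_nhds.mp lim1 δ3 hδ30).and
    (Metric.tendsto_nhds.mp lim2 δ3 hδ30)).and (eventually_ge_atTop k)).exists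
  set m := φ M with hm
  have hkm : k ≤ nn m := by
    have := hφ.id_le M
    have := hnm m
    simp only [id] at *
    omega
  obtain ⟨υ', hυ'0, hυ'1, hυ'⟩ := hleaf ⟨(z m).1⟩ ⟨(z m).2⟩
    ((SM.dist_le _ _ hη1.le).mpr ((hnn m).mono l2))
  let ζm : Path (z m).1 (z m).2 := ⟨vp υ', by show (υ' 0).val = _; rw [hυ'0],
    by show (υ' 1).val = _; rw [hυ'1]⟩
  obtain ⟨κ1, k10, k11, k12⟩ := hp x x (z m).1 (mem_ball_self hδ2)
    (lt_of_lt_of_le hM1 (min_le_left _ _))
  obtain ⟨κ2, k20, k21, k22⟩ := hp y (z m).2 y (lt_of_lt_of_le hM2 (min_le_left _ _))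
    (mem_ball_self hδ2)
  let p1 : Path x (z m).1 := ⟨κ1, k10, k11⟩
  let p2 : Path (z m).2 y := ⟨κ2, k20, k21⟩
  have dυ : ∀ t, dist (ζ t) x ≤ δ0 / 8 := fun t => by
    have := (SM.dist_le _ _ (by linarith : (0 : ℝ) ≤ δ0 / 8)).mp (hυ t) 0
    rw [dist_comm]; exact this
  have dυ' : ∀ t, dist (ζm t) (z m).1 ≤ δ0 / 8 := fun t => by
    have := (SM.dist_le _ _ (by linarith : (0 : ℝ) ≤ δ0 / 8)).mp (hυ' t) 0
    rw [dist_comm]; exact this
  have hom1 : ζ.Homotopic ((p1.trans ζm).trans p2) := by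
    apply h0 x
    · intro t
      have := dυ t
      linarith
    · refine trans_mem (S := {w | dist w x < δ0}) (trans_mem (S := {w | dist w x < δ0}) ?_ ?_) ?_
      · intro t
        have := k12 t
        rw [mem_ball] at this
        show dist (κ1 t) x < δ0
        linarith
      · intro t
        have a1 := dυ' t
        have a2 : dist (z m).1 x < δ3 := hM1
        have a3 : δ3 ≤ δ0 / 8 := min_le_right _ _
        have a4 := dist_triangle (ζm t) (z m).1 x
        show dist (ζm t) x < δ0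
        linarith
      · intro t
        have a1 := k22 t
        rw [mem_ball] at a1
        have a2 := dυ 1
        rw [ζ.target] at a2
        have a4 := dist_triangle (κ2 t) y x
        show dist (κ2 t) x < δ0
        linarith
  let γm : Path (z m).1 (z m).2 := pth (push F (nn m) (γ m))
  have hom2 : ζm.Homotopic γm := by
    apply shr_unique hX (g := F)
    · exact shr_leaf h hn hg υ'
    · exact (hγs m).push (nn m)
  have hom3 : ζ.Homotopic ((p1.trans γm).trans p2) :=
    hom1.trans (Path.Homotopic.hcomp (Path.Homotopic.hcomp (Path.Homotopic.refl _) hom2)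
      (Path.Homotopic.refl _))
  set ψ : X ≃ₜ X := iterHomeo F.symm k with hψ
  have hom4 : (ζ.map ψ.continuous).Homotopic (((p1.trans γm).trans p2).map ψ.continuous) :=
    Path.Homotopic.map (f := (ψ : C(X, X))) hom3
  have hlen : len V (ζ.map ψ.continuous) ≤ K4 + 2 := by
    rw [len_homotopic hom4, Path.map_trans, Path.map_trans]
    have b1 : len V (p1.map ψ.continuous) ≤ 1 := by
      apply len_small
      intro s t
      apply hV'
      apply hT k le_rfl
      have a1 := k12 s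
      have a2 := k12 t
      rw [mem_ball] at a1 a2
      have a3 := dist_triangle_right (κ1 s) (κ1 t) x
      show dist (κ1 s) (κ1 t) < θ
      linarith
    have b2 : len V (p2.map ψ.continuous) ≤ 1 := by
      apply len_small
      intro s t
      apply hV'
      apply hT k le_rfl
      have a1 := k22 s
      have a2 := k22 t
      rw [mem_ball] at a1 a2
      have a3 := dist_triangle_right (κ2 s) (κ2 t) y
      show dist (κ2 s) (κ2 t) < θ
      linarith
    have b3 : len V (γm.map ψ.continuous) ≤ K4 := by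
      have e1 : len V (γm.map ψ.continuous) = hl V (push F.symm k (push F (nn m) (γ m))) :=
        (hl_coe (V := V) (γm.map ψ.continuous)).symm
      rw [e1, push_symm_push F k _ hkm]
      refine (all_bound hV hN hBF hB1 hB (hγs m) _).trans ?_
      exact Nat.mul_le_mul_left _ (max_le_max le_rfl (hγK m))
    have b4 := len_trans hV ((p1.map ψ.continuous).trans (γm.map ψ.continuous))
      (p2.map ψ.continuous)
    have b5 := len_trans hV (p1.map ψ.continuous) (γm.map ψ.continuous)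
    omega
  have e2 : hl V (push F.symm k (ζ : C(I, X))) = len V (ζ.map ψ.continuous) :=
    hl_coe (V := V) (ζ.map ψ.continuous)
  omega

/-- **Hyperbolicity at large scale and properness imply coarse transversality.** -/
theorem CT_of_growth [CompactSpace X] {g F : X ≃ₜ X} {c : ℝ} (h : LP g c) (hX : ULC X) {n : ℕ}
    (hn : 1 ≤ n) (hg : ∀ k x, g^[k] x = F^[n * k] x) (hgF : ∀ x, F (g x) = g (F x))
    {V : Set (X × X)} (hV : Nb V) {N R B : ℕ} (hN : 1 ≤ N) (hBF : BF F V N R) (hB1 : 1 ≤ B)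
    (hB : ∀ (x y : X) (p : Path x y), len V (p.map F.continuous) ≤ B * len V p)
    (hB' : ∀ (x y : X) (p : Path x y), len V (p.map F.symm.continuous) ≤ B * len V p)
    (hNB : NB F V) : CT F V := by
  intro K η hη
  obtain ⟨m, hm⟩ := proper h hX hn hg hgF hV hN hBF hB1 hB hNB
    (2 * (B ^ N * K) + 2 * max R 1 + K) η hη
  refine ⟨m, fun x y z γ ξ hγ hξ hK k hk => ?_⟩
  have h1 := quad hV hN hBF hB' γ ξ hγ hξ hK
  have h2 := hm (γ : C(I, X)) (fun ε hε => hγ ε hε) (by rw [hl_coe]; exact h1) k hk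
  have e0 : (γ : C(I, X)) 0 = x := γ.source
  have e1 : (γ : C(I, X)) 1 = z := γ.target
  rwa [e0, e1] at h2

end Pool.Agent.T6.H46.DL
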