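import Pool.Agent.T6.H46.DL.Fin
import Pool.Agent.H721R2.Shadow

set_option autoImplicit false

open Filter Topology Set Metric unitInterval

namespace Pool.Agent.T6.H46.DL

open Pool.Agent.H789R2.AN Pool.Agent.H789R2.GP Pool.Agent.H721R2 Pool.Agent.T6.H66.PS

variable {X : Type*} [MetricSpace X] {G : Type*} [NormedAddCommGroup G] [NormedSpace ℝ G]

/-- Closed pseudo-orbits are shadowed by periodic points. -/
theorem closing_seq [CompactSpace X] (S : HypSys X G) {c : ℝ} (h : LP S.g c) : ∀ ε > 0,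
    ∃ δ > 0, ∀ n : ℕ, 1 ≤ n → ∀ a : ℕ → X, a n = a 0 →
      (∀ j < n, dist (S.g (a j)) (a (j + 1)) < δ) →
      ∃ p, S.g^[n] p = p ∧ ∀ j ≤ n, dist (S.g^[j] p) (a j) < ε := by
  intro ε hε
  have hK := S.one_le_K
  have hK0 : 0 < S.K := by linarith
  have hc := h.c_pos
  obtain ⟨ε₀, hε₀, hsh⟩ := S.shadowing
  set δ := min ε₀ (min (c / (16 * S.K)) (ε / (16 * S.K))) with hδ
  have hδ0 : 0 < δ := by positivity
  have d1 : δ ≤ ε₀ := min_le_left _ _
  have d2 : 16 * S.K * δ ≤ c := by
    have : δ ≤ c / (16 * S.K) := (min_le_right _ _).trans (min_le_left _ _)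
    rw [le_div_iff₀ (by positivity)] at this
    linarith
  have d3 : 16 * S.K * δ ≤ ε := by
    have : δ ≤ ε / (16 * S.K) := (min_le_right _ _).trans (min_le_right _ _)
    rw [le_div_iff₀ (by positivity)] at this
    linarith
  refine ⟨δ, hδ0, fun n hn a ha hstep => ?_⟩
  have hn0 : (0 : ℤ) < n := by exact_mod_cast hn
  let z : ℤ → X := fun k => a (k % n).toNat
  have hz : ∀ k, dist (S.g (z k)) (z (k + 1)) ≤ δ := by
    intro k
    have h0 : 0 ≤ k % n := Int.emod_nonneg k hn0.ne'
    have h1 : k % n < n := Int.emod_lt_of_pos k hn0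
    show dist (S.g (a (k % n).toNat)) (a ((k + 1) % n).toNat) ≤ δ
    have h5 := (hstep (k % n).toNat (by omega)).le
    by_cases h2 : k % n + 1 < n
    · have h3 : (k + 1) % n = k % n + 1 := by
        rw [Int.add_emod]
        have h5 : (1 : ℤ) % n = 1 := Int.emod_eq_of_lt (by norm_num) (by omega)
        rw [h5]
        exact Int.emod_eq_of_lt (by omega) h2
      rw [h3]
      have h4 : (k % n + 1).toNat = (k % n).toNat + 1 := by omega
      rw [h4]
      exact h5
    · have h3 : k % n = n - 1 := by omega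
      have h4 : (k + 1) % n = 0 := by
        have : k + 1 = n * (k / n) + n := by
          have := Int.mul_ediv_add_emod k n
          omega
        rw [this]
        simp
      have h6 : (k % n).toNat + 1 = n := by omega
      rw [h6, ha] at h5
      rw [h4]
      exact h5
  obtain ⟨w, hw1, hw2⟩ := hsh δ d1 z hz
  have hzq : ∀ k, z (k + n) = z k := by
    intro k
    show a ((k + n) % n).toNat = a (k % n).toNat
    rw [Int.add_emod_right]
  have hww : ∀ k, dist (w k) (w (k + n)) ≤ 16 * S.K * δ := by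
    intro k
    have h1 := hw2 k
    have h2 := hw2 (k + n)
    rw [hzq] at h2
    have h3 := dist_triangle (w k) (z k) (w (k + n))
    rw [dist_comm (z k)] at h3
    linarith
  have hw' : ∀ k, w (k + 1 + n) = S.g (w (k + n)) := by
    intro k
    have := hw1 (k + n)
    rw [← this]
    congr 1
    ring
  have e1 : ∀ k : ℕ, S.g^[k] (w 0) = w k := fun k => (S.orbit_nat w hw1 k).symm
  have e2 : ∀ k : ℕ, S.g^[k] (w n) = w (k + n) := fun k => by
    have := S.orbit_nat (fun k => w (k + n)) hw' k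
    simp only [zero_add] at this
    exact this.symm
  have e3 : ∀ k : ℕ, S.g.symm^[k] (w 0) = w (-k) := fun k => (S.orbit_neg w hw1 k).symm
  have e4 : ∀ k : ℕ, S.g.symm^[k] (w n) = w (-k + n) := fun k => by
    have := S.orbit_neg (fun k => w (k + n)) hw' k
    simp only [zero_add] at this
    exact this.symm
  have heq : w 0 = w n := by
    refine expansive h (fun k => ?_) (fun k => ?_)
    · rw [e1, e2]
      exact (hww k).trans d2
    · rw [e3, e4]
      exact (hww (-k)).trans d2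
  refine ⟨w 0, ?_, fun j hj => ?_⟩
  · rw [e1, ← heq]
  · rw [e1]
    have h1 := hw2 j
    have h2 : z j = a j := by
      rcases lt_or_eq_of_le hj with h3 | h3
      · show a ((j : ℤ) % n).toNat = a j
        rw [Int.emod_eq_of_lt (by omega) (by omega)]
        rfl
      · rw [h3]
        show a ((n : ℤ) % n).toNat = a n
        rw [Int.emod_self, ha]
        rfl
    rw [h2] at h1
    have : 0 < S.K * δ := by positivity
    linarith

theorem cl_of_path {r : ℝ} (c c' : C(I, X)) {x y : X} (hx : c 0 = x) (hy : c 1 = y)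
    (s : Path x (c' 0)) (s' : Path y (c' 1)) (hs : ∀ t, dist (s t) x < r)
    (hs' : ∀ t, dist (s' t) y < r)
    (heq : (Q (⟨c, hx, hy⟩ : Path x y)).trans (Q s') = (Q s).trans (Q (pth c'))) : Cl r c c' := by
  subst hx
  subst hy
  exact ⟨s, s', hs, hs', heq⟩

/-- Closed pseudo-orbits of homotopy classes of paths are shadowed by periodic classes. -/
theorem pair_closing [CompactSpace X] (hX : ULC X) (S : HypSys X G) {c : ℝ} (h : LP S.g c) :
    ∀ ε > 0, ∃ δ > 0, ∀ n : ℕ, 1 ≤ n → ∀ w : ℕ → C(I, X), w n = w 0 →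
      (∀ j < n, Cl δ (push S.g 1 (w j)) (w (j + 1))) →
      ∃ e : C(I, X), (push S.g n e).HomotopicRel e {0, 1} ∧ Cl ε e (w 0) := by
  intro ε hε
  obtain ⟨δi, hδi, himp⟩ := cl_improve hX
  obtain ⟨δh, hδh, hhom⟩ := hom_of_cl hX
  obtain ⟨r1, hr1, hT⟩ := T1_unif S.g 1 (half_pos hδi)
  set ε1 := min (min ε (δh / 4)) r1 with hε1
  have hε10 : 0 < ε1 := by positivity
  have l1 : ε1 ≤ ε := (min_le_left _ _).trans (min_le_left _ _)
  have l2 : ε1 ≤ δh / 4 := (min_le_left _ _).trans (min_le_right _ _)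
  have l3 : ε1 ≤ r1 := min_le_right _ _
  obtain ⟨ρ, hρ, hρ'⟩ := himp ε1 hε10
  obtain ⟨ρ2, hρ2, hp⟩ := hX.path ε1 hε10
  obtain ⟨δc, hδc, hcl⟩ := closing_seq S h (min ρ ρ2) (lt_min hρ hρ2)
  refine ⟨min (δi / 2) δc, lt_min (by linarith) hδc, fun n hn w hwn hw => ?_⟩
  have m1 : min (δi / 2) δc ≤ δi / 2 := min_le_left _ _
  have m2 : min (δi / 2) δc ≤ δc := min_le_right _ _
  obtain ⟨p, hp1, hp2⟩ := hcl n hn (fun j => w j 0) (by show w n 0 = w 0 0; rw [hwn])
    (fun j hj => lt_of_lt_of_le (hw j hj).dist0 m2)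
  obtain ⟨q, hq1, hq2⟩ := hcl n hn (fun j => w j 1) (by show w n 1 = w 0 1; rw [hwn])
    (fun j hj => lt_of_lt_of_le (hw j hj).dist1 m2)
  have hp0 : dist p (w 0 0) < min ρ ρ2 := hp2 0 (by omega)
  have hq0 : dist q (w 0 1) < min ρ ρ2 := hq2 0 (by omega)
  obtain ⟨κ, a1, a2, a3⟩ := hp p p (w 0 0) (mem_ball_self hρ2) (by
    rw [mem_ball, dist_comm]; exact lt_of_lt_of_le hp0 (min_le_right _ _))
  obtain ⟨κ', b1, b2, b3⟩ := hp q q (w 0 1) (mem_ball_self hρ2) (by
    rw [mem_ball, dist_comm]; exact lt_of_lt_of_le hq0 (min_le_right _ _))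
  let s : Path p (w 0 0) := ⟨κ, a1, a2⟩
  let s' : Path q (w 0 1) := ⟨κ', b1, b2⟩
  let eP : Path p q := (s.trans (pth (w 0))).trans s'.symm
  let e : C(I, X) := eP
  have e0 : e 0 = p := eP.source
  have e1 : e 1 = q := eP.target
  have hbase : Cl ε1 e (w 0) := by
    refine cl_of_path e (w 0) e0 e1 s s' a3 b3 ?_
    show (((Q s).trans (Q (pth (w 0)))).trans (Q s').symm).trans (Q s') =
      (Q s).trans (Q (pth (w 0)))
    rw [Path.Homotopic.Quotient.trans_assoc, Path.Homotopic.Quotient.symm_trans,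
      Path.Homotopic.Quotient.trans_refl]
  have key : ∀ j ≤ n, Cl ε1 (push S.g j e) (w j) := by
    intro j
    induction j with
    | zero => intro _; rw [push_zero]; exact hbase
    | succ j ih =>
      intro hj
      have h1 := ih (by omega)
      have h2 : Cl (δi / 2) (push S.g 1 (push S.g j e)) (push S.g 1 (w j)) :=
        h1.push (fun u v huv => hT 1 le_rfl u v (lt_of_lt_of_le huv l3))
      have h3 := (h2.trans (hw j (by omega))).mono (r' := δi) (by linarith)
      rw [push_push, add_comm 1 j] at h3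
      apply hρ' _ _ h3
      · show dist (S.g^[j + 1] (e 0)) (w (j + 1) 0) < ρ
        rw [e0]
        exact lt_of_lt_of_le (hp2 (j + 1) hj) (min_le_left _ _)
      · show dist (S.g^[j + 1] (e 1)) (w (j + 1) 1) < ρ
        rw [e1]
        exact lt_of_lt_of_le (hq2 (j + 1) hj) (min_le_left _ _)
  refine ⟨e, ?_, hbase.mono l1⟩
  have h5 := key n le_rfl
  rw [hwn] at h5
  apply hhom _ _ ((h5.trans hbase.symm).mono (by linarith))
  · show S.g^[n] (e 0) = e 0
    rw [e0, hp1]
  · show S.g^[n] (e 1) = e 1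
    rw [e1, hq1]

end Pool.Agent.T6.H46.DL
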