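import Pool.Agent.T6.H46.DL.Homo
import Pool.Agent.H721R2.Build

set_option autoImplicit false

open Filter Topology Set Metric unitInterval

namespace Pool.Agent.T6.H46.DL

open Pool.Agent.H789R2.AN Pool.Agent.H789R2.GP Pool.Agent.H721R2 Pool.Agent.T6.H66.PS

variable {X : Type*} [MetricSpace X]

/-- the iterates of the path shrink -/
def Shr (φ : X → X) {x y : X} (c : Path x y) : Prop :=
  ∀ ε > 0, ∃ m : ℕ, ∀ k ≥ m, ∀ s t, dist (φ^[k] (c s)) (φ^[k] (c t)) < ε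

theorem Shr.symm {φ : X → X} {x y : X} {c : Path x y} (h : Shr φ c) : Shr φ c.symm := by
  intro ε hε
  obtain ⟨m, hm⟩ := h ε hε
  exact ⟨m, fun k hk s t => hm k hk _ _⟩

/-- the path in `X` of a path in a leaf -/
noncomputable def vp [CompactSpace X] {g : X ≃ₜ X} (υ : C(I, SM g)) : C(I, X) :=
  ⟨fun t => (υ t).val, SM.val_continuous.comp υ.continuous⟩

theorem shr_leaf [CompactSpace X] {g F : X ≃ₜ X} {c : ℝ} (h : LP g c) {n : ℕ} (hn : 1 ≤ n)
    (hg : ∀ k x, g^[k] x = F^[n * k] x) (υ : C(I, SM g)) : Shr F (pth (vp υ)) := by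
  intro ε hε
  obtain ⟨η, hη, h1⟩ := T1_unif F n hε
  obtain ⟨m, hm⟩ := good_path_contr h υ (η / 2) (half_pos hη)
  refine ⟨n * m, fun k hk s t => ?_⟩
  have h2 := Nat.div_add_mod k n
  have h3 := Nat.mod_lt k (show 0 < n by omega)
  have h5 : m ≤ k / n := by
    rw [Nat.le_div_iff_mul_le (by omega), mul_comm]
    exact hk
  have h4 : ∀ z : X, F^[k] z = F^[k % n] (g^[k / n - m] (g^[m] z)) := fun z => by
    rw [← Function.iterate_add_apply g, hg, ← Function.iterate_add_apply]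
    congr 2
    rw [Nat.sub_add_cancel h5]
    omega
  rw [h4, h4]
  exact h1 _ h3.le _ _ (lt_of_le_of_lt (hm s t _) (half_lt_self hη))

theorem Shr.g {g F : X ≃ₜ X} {n : ℕ} (hn : 1 ≤ n) (hg : ∀ k x, g^[k] x = F^[n * k] x)
    {x y : X} {c : Path x y} (h : Shr F c) : Shr g c := by
  intro ε hε
  obtain ⟨m, hm⟩ := h ε hε
  refine ⟨m, fun k hk s t => ?_⟩
  rw [hg, hg]
  exact hm _ (by nlinarith) s t

theorem Pr_unif [CompactSpace X] {g : X ≃ₜ X} (Γ : C(I, Pr g)) {ε : ℝ} (hε : 0 < ε) :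
    ∃ m : ℕ, ∀ k ≥ m, ∀ t, dist (g^[k] (Γ t).x) (g^[k] (Γ t).y) ≤ ε := by
  have h1 := ((Pr.continuous_iff (Γ : I → Pr g)).mp Γ.continuous).2.2
  choose n hn using fun a => h1 a ε hε
  obtain ⟨T, hT⟩ := (isCompact_univ : IsCompact (univ : Set I)).elim_nhds_subcover
    (fun a => {a' | ∀ k ≥ n a, dist (g^[k] (Γ a').x) (g^[k] (Γ a').y) ≤ ε}) (fun a _ => hn a)
  refine ⟨T.sup n, fun k hk t => ?_⟩
  have h2 := hT.2 (mem_univ t)
  rw [mem_iUnion₂] at h2
  obtain ⟨a, ha, h3⟩ := h2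
  exact h3 k ((Finset.le_sup ha).trans hk)

/-- first entries -/
noncomputable def xp [CompactSpace X] {g : X ≃ₜ X} (Γ : C(I, Pr g)) : C(I, X) :=
  ⟨fun t => (Γ t).x, SM.val_continuous.comp
    ((Pr.continuous_iff (Γ : I → Pr g)).mp Γ.continuous).1⟩

/-- second entries -/
noncomputable def yp [CompactSpace X] {g : X ≃ₜ X} (Γ : C(I, Pr g)) : C(I, X) :=
  vp (sndPath Γ)

/-- **The boundary of a strip is contractible.** -/
theorem strip [CompactSpace X] (hX : ULC X) {g : X ≃ₜ X} (Γ : C(I, Pr g))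
    (γ₀ : Path (Γ 0).x (Γ 0).y) (γ₁ : Path (Γ 1).x (Γ 1).y) (h0 : Shr g γ₀) (h1 : Shr g γ₁) :
    (Q (pth (xp Γ))).trans (Q γ₁) = (Q γ₀).trans (Q (pth (yp Γ))) := by
  obtain ⟨δ, hδ, hcl⟩ := close_paths hX
  obtain ⟨m0, hm0⟩ := Pr_unif Γ (half_pos hδ)
  obtain ⟨m1, hm1⟩ := h0 δ hδ
  obtain ⟨m2, hm2⟩ := h1 δ hδ
  set m := max m0 (max m1 m2) with hm
  have k0 : m0 ≤ m := le_max_left _ _
  have k1 : m1 ≤ m := (le_max_left _ _).trans (le_max_right _ _)
  have k2 : m2 ≤ m := (le_max_right _ _).trans (le_max_right _ _)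
  let φ : X ≃ₜ X := iterHomeo g m
  let α : C(I, X) := ⟨fun t => φ ((xp Γ) t), φ.continuous.comp (xp Γ).continuous⟩
  let β : C(I, X) := ⟨fun t => φ ((yp Γ) t), φ.continuous.comp (yp Γ).continuous⟩
  have h5 := hcl α β (γ₀.map φ.continuous) (γ₁.map φ.continuous)
    (fun t => lt_of_le_of_lt (hm0 m k0 t) (half_lt_self hδ)) (fun t => by
      have := hm1 m k1 t 0
      rw [γ₀.source] at this
      exact this) (fun t => by
      have := hm2 m k2 t 0
      rw [γ₁.source] at this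
      exact this)
  have h6 : (((pth (xp Γ)).trans γ₁).map φ.continuous).Homotopic
      ((γ₀.trans (pth (yp Γ))).map φ.continuous) := by
    rw [Path.map_trans, Path.map_trans]
    exact Path.Homotopic.Quotient.eq.mp h5
  exact Path.Homotopic.Quotient.eq.mpr (homotopic_of_map φ h6)

/-- Two stable paths with the same end points are homotopic. -/
theorem shr_unique (hX : ULC X) {g : X ≃ₜ X} {x y : X} {γ γ' : Path x y} (h : Shr g γ)
    (h' : Shr g γ') : γ.Homotopic γ' := by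
  obtain ⟨δ, hδ, h0⟩ := small_hom hX
  obtain ⟨m1, hm1⟩ := h δ hδ
  obtain ⟨m2, hm2⟩ := h' δ hδ
  set m := max m1 m2 with hm
  let φ : X ≃ₜ X := iterHomeo g m
  apply homotopic_of_map φ
  apply h0 (φ x)
  · intro t
    have := hm1 m (le_max_left _ _) t 0
    rw [γ.source] at this
    exact this
  · intro t
    have := hm2 m (le_max_right _ _) t 0
    rw [γ'.source] at this
    exact this

end Pool.Agent.T6.H46.DL
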